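import Pool.Agent.H393.EV.Card
import Pool.Agent.H393.EV.W1Chk

/-! A nonevasive extension of an `A5`-invariant contractible complex on `5 + 6` points by two
exchanged cones (complex: helper60; extension and strategies: helper702, found by annealing).
Bits 0-10: the old vertices, bits 11, 12: the new vertices.  (helper702, helper393) -/

set_option autoImplicit false

namespace Pool.Agent.H393.EW

open Pool.Agent.H393.EV

/-- The facets of the nonevasive complex. -/
def MM : List ℕ :=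
  [493, 508, 941, 953, 1262, 1276, 1646, 1654, 2475, 2507, 2510, 2535, 2550, 2791, 2797, 2803,
    2805, 2810, 2812, 2873, 2919, 2923, 2925, 2931, 2933, 2934, 2938, 2940, 2990, 2995, 3002,
    3004, 3015, 3021, 3030, 3033, 3036, 3182, 3303, 3307, 3315, 3318, 3431, 3435, 3437, 3446,
    3450, 3452, 3495, 3502, 3510, 3514, 3516, 3527, 3533, 3539, 3542, 3545, 3662, 3691, 3693,
    3699, 3701, 3706, 3708, 3751, 3755, 3758, 3763, 3765, 3769, 3770, 3772, 3789, 3797, 3801,
    3804, 3885, 3886, 3893, 3894, 3898, 3915, 3923, 3924, 3929, 3930, 3975, 3981, 3982, 3987,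
    3993, 3994, 4525, 4583, 4587, 4595, 4601, 4843, 4846, 4851, 4853, 4858, 4860, 4967, 4971,
    4973, 4979, 4981, 4982, 4986, 4988, 5005, 5031, 5038, 5043, 5045, 5050, 5052, 5070, 5078,
    5082, 5084, 5223, 5319, 5325, 5355, 5369, 5483, 5485, 5493, 5497, 5500, 5543, 5547, 5550,
    5557, 5561, 5564, 5579, 5582, 5587, 5590, 5593, 5686, 5741, 5747, 5749, 5756, 5799, 5803,
    5806, 5811, 5813, 5817, 5818, 5820, 5835, 5838, 5846, 5849, 5852, 5933, 5934, 5941, 5945,
    5946, 5963, 5965, 5966, 5971, 5973, 5974, 6023, 6035, 6037, 6038, 6040, 6375, 6379, 6507,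
    6509, 6539, 6567, 6588, 6599, 6630, 6650, 6745, 6759, 6763, 6765, 6766, 6773, 6774, 6778,
    6780, 6806, 6823, 6827, 6829, 6830, 6837, 6841, 6842, 6844, 6861, 6862, 6869, 6874, 6876,
    6883, 6886, 6889, 6897, 6898, 6900, 6904, 6957, 6958, 6965, 6966, 6970, 6972, 6983, 6987,
    6997, 6998, 7002, 7004, 7011, 7013, 7014, 7017, 7020, 7025, 7028, 7032, 7047, 7054, 7066,
    7075, 7078, 7082, 7092, 7096, 7110, 7116, 7123, 7124, 7128, 7239, 7275, 7292, 7335, 7342,
    7371, 7401, 7413, 7477, 7482, 7505, 7522, 7544, 7570, 7585, 7604, 7644, 7725, 7726, 7733,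
    7737, 7738, 7740, 7755, 7757, 7765, 7779, 7781, 7785, 7796, 7800, 7815, 7819, 7829, 7833,
    7834, 7836, 7843, 7846, 7849, 7850, 7852, 7858, 7860, 7864, 7881, 7884, 7891, 7892, 7896,
    7975, 7979, 7984, 8008, 8068]

/-- The type of a vertex of the chart. -/
def tyc (i : ℕ) : ℕ := if i < 5 then 0 else if i < 11 then 1 else 2

/-- A part of a certificate. -/
def T1 : Tr :=
  (.prune (.node 3 (.node 2 (.node 0 (.node 1 (.cone 5) (.node 4 (.cone 5) (.node 7 (.node 5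
    (.cone 9) (.node 12 (.cone 9) (.cone 9))) (.prune (.node 11 (.node 12 (.cone 5) (.cone 5))
    (.cone 5)))))) (.prune (.node 9 (.node 4 (.cone 1) (.node 7 (.node 5 (.cone 1) (.node 12
    (.cone 1) (.cone 1))) (.prune (.node 11 (.node 12 (.cone 1) (.cone 1)) (.cone 1)))))
    (.prune (.node 1 (.node 4 (.cone 5) (.node 11 (.node 12 (.cone 5) (.cone 5)) (.cone 5)))
    (.prune (.node 5 (.node 11 (.node 12 (.cone 4) (.cone 4)) (.cone 4)) (.cone 4))))))))
    (.prune (.node 7 (.node 9 (.node 5 (.cone 0) (.node 0 (.node 1 (.cone 4) (.node 12 (.cone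
    4) (.cone 4))) (.prune (.node 12 (.node 1 (.cone 4) (.node 11 (.cone 4) (.cone 4))) (.prune
    (.cone 1)))))) (.prune (.node 11 (.node 0 (.node 1 (.cone 4) (.node 5 (.cone 4) (.node 12
    (.cone 4) (.cone 4)))) (.prune (.node 12 (.node 1 (.cone 4) (.node 5 (.cone 4) (.cone 4)))
    (.prune (.cone 1))))) (.prune (.node 1 (.node 4 (.node 0 (.cone 5) (.node 12 (.cone 5)
    (.cone 5))) (.prune (.cone 0))) (.prune (.cone 0))))))) (.prune (.node 4 (.node 0 (.node 1
    (.cone 5) (.node 11 (.node 5 (.cone 9) (.node 12 (.cone 9) (.cone 9))) (.prune (.cone 5))))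
    (.prune (.node 9 (.node 11 (.node 12 (.cone 1) (.cone 1)) (.cone 1)) (.cone 1)))) (.prune
    (.cone 0))))))) (.prune (.node 7 (.node 11 (.node 9 (.node 5 (.cone 0) (.node 4 (.node 2
    (.cone 0) (.node 12 (.cone 0) (.cone 0))) (.prune (.node 12 (.node 0 (.cone 1) (.node 1
    (.cone 2) (.cone 2))) (.prune (.cone 0)))))) (.prune (.node 0 (.node 4 (.node 2 (.cone 1)
    (.node 5 (.cone 1) (.node 12 (.cone 1) (.cone 1)))) (.prune (.node 12 (.node 1 (.cone 2)
    (.node 2 (.cone 5) (.cone 5))) (.prune (.cone 1))))) (.prune (.node 1 (.node 12 (.node 2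
    (.cone 4) (.node 5 (.cone 4) (.cone 4))) (.prune (.cone 2))) (.prune (.cone 2)))))))
    (.prune (.node 5 (.node 9 (.cone 0) (.node 1 (.node 4 (.node 0 (.cone 2) (.node 12 (.cone
    2) (.cone 2))) (.prune (.cone 0))) (.prune (.cone 0)))) (.prune (.node 0 (.node 1 (.node 2
    (.node 4 (.cone 9) (.cone 9)) (.prune (.cone 4))) (.prune (.cone 2))) (.prune (.cone
    1))))))) (.prune (.node 4 (.node 1 (.node 0 (.node 2 (.cone 5) (.node 5 (.cone 9) (.node 11
    (.node 12 (.cone 9) (.cone 9)) (.cone 9)))) (.prune (.node 12 (.node 2 (.node 5 (.cone 9)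
    (.node 11 (.cone 9) (.cone 9))) (.prune (.node 9 (.node 11 (.cone 5) (.cone 5)) (.cone
    5)))) (.prune (.cone 2))))) (.prune (.node 9 (.node 11 (.node 12 (.node 0 (.cone 2) (.node
    2 (.cone 5) (.cone 5))) (.prune (.cone 0))) (.prune (.cone 0))) (.prune (.cone 0)))))
    (.prune (.cone 0))))))))

/-- A part of a certificate. -/
def T2 : Tr :=
  (.node 7 (.node 0 (.node 3 (.node 4 (.node 1 (.cone 5) (.node 2 (.cone 5) (.node 9 (.cone 5)
    (.node 11 (.cone 5) (.cone 5))))) (.prune (.node 9 (.node 1 (.cone 2) (.node 5 (.cone 2)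
    (.node 6 (.cone 2) (.node 11 (.cone 2) (.cone 2))))) (.prune (.node 2 (.node 1 (.cone 5)
    (.node 6 (.cone 5) (.node 11 (.cone 5) (.cone 5)))) (.prune (.node 11 (.node 5 (.cone 1)
    (.node 6 (.cone 1) (.cone 1))) (.cone 1)))))))) (.prune (.node 2 (.node 4 (.node 1 (.cone
    5) (.node 6 (.cone 5) (.node 11 (.cone 5) (.cone 5)))) (.prune (.node 6 (.node 9 (.cone 1)
    (.node 5 (.node 11 (.cone 1) (.cone 1)) (.cone 1))) (.prune (.node 5 (.node 9 (.node 11
    (.cone 1) (.cone 1)) (.cone 1)) (.cone 1)))))) (.prune (.node 5 (.node 6 (.node 9 (.cone 1)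
    (.node 11 (.cone 1) (.cone 1))) (.prune (.node 4 (.node 11 (.cone 1) (.cone 1)) (.cone
    1)))) (.cone 1)))))) (.prune (.node 2 (.node 5 (.node 6 (.node 3 (.cone 1) (.node 4 (.cone
    1) (.node 9 (.cone 1) (.cone 1)))) (.prune (.node 1 (.node 4 (.cone 3) (.node 3 (.node 11
    (.cone 9) (.cone 9)) (.cone 9))) (.prune (.node 3 (.node 9 (.node 11 (.cone 4) (.cone 4))
    (.cone 4)) (.cone 4)))))) (.prune (.node 1 (.node 3 (.node 4 (.cone 6) (.node 6 (.node 11
    (.cone 9) (.cone 9)) (.cone 9))) (.prune (.node 4 (.node 11 (.cone 6) (.cone 6)) (.cone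
    6)))) (.prune (.node 3 (.node 4 (.node 9 (.node 11 (.cone 6) (.cone 6)) (.cone 6)) (.cone
    6)) (.prune (.cone 4))))))) (.prune (.node 9 (.node 5 (.node 6 (.cone 1) (.node 1 (.node 4
    (.node 11 (.cone 3) (.cone 3)) (.cone 3)) (.cone 3))) (.prune (.node 1 (.node 3 (.node 6
    (.node 11 (.cone 4) (.cone 4)) (.cone 4)) (.cone 4)) (.prune (.cone 3))))) (.prune (.cone
    1))))))) (.prune (.node 1 (.node 2 (.node 0 (.node 3 (.cone 5) (.node 4 (.cone 5) (.node 5
    (.node 6 (.node 11 (.cone 9) (.cone 9)) (.cone 9)) (.prune (.cone 6))))) (.prune (.node 3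
    (.node 4 (.cone 5) (.node 6 (.node 5 (.cone 9) (.node 11 (.cone 9) (.cone 9))) (.prune
    (.cone 5)))) (.prune (.node 4 (.node 5 (.node 6 (.node 11 (.cone 9) (.cone 9)) (.cone 9))
    (.prune (.cone 6))) (.prune (.cone 5))))))) (.prune (.node 4 (.node 0 (.node 3 (.cone 5)
    (.node 5 (.node 11 (.cone 6) (.cone 6)) (.cone 6))) (.prune (.node 5 (.node 6 (.node 9
    (.node 11 (.cone 3) (.cone 3)) (.cone 3)) (.cone 3)) (.cone 3)))) (.prune (.node 3 (.node 5
    (.node 6 (.node 9 (.node 11 (.cone 0) (.cone 0)) (.cone 0)) (.cone 0)) (.cone 0)) (.cone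
    0)))))) (.prune (.node 0 (.node 2 (.node 3 (.node 4 (.cone 5) (.node 6 (.node 9 (.node 11
    (.cone 5) (.cone 5)) (.cone 5)) (.cone 5))) (.prune (.node 4 (.node 5 (.node 6 (.node 11
    (.cone 9) (.cone 9)) (.cone 9)) (.prune (.cone 6))) (.prune (.cone 5))))) (.prune (.node 3
    (.node 4 (.node 11 (.cone 5) (.node 6 (.node 9 (.cone 5) (.cone 5)) (.cone 5))) (.cone 5))
    (.prune (.cone 4))))) (.prune (.node 2 (.node 3 (.node 4 (.node 5 (.node 6 (.node 11 (.cone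
    9) (.cone 9)) (.cone 9)) (.prune (.cone 6))) (.prune (.cone 5))) (.prune (.cone 4)))
    (.prune (.cone 3)))))))))

/-- A part of a certificate. -/
def T3 : Tr :=
  (.node 10 (.node 6 (.node 9 (.node 5 (.cone 11) (.node 7 (.cone 11) (.node 2 (.node 0 (.node 1
    (.cone 11) (.node 11 (.cone 3) (.node 3 (.node 4 (.cone 12) (.cone 12)) (.prune (.cone
    4))))) (.prune (.node 3 (.node 4 (.cone 1) (.node 11 (.cone 1) (.cone 1))) (.prune (.node
    11 (.node 1 (.cone 4) (.node 12 (.cone 4) (.cone 4))) (.prune (.cone 1))))))) (.prune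
    (.node 4 (.node 3 (.node 12 (.cone 0) (.node 0 (.node 1 (.cone 11) (.cone 11)) (.prune
    (.cone 1)))) (.prune (.node 11 (.node 12 (.cone 0) (.cone 0)) (.cone 0)))) (.prune (.node
    11 (.node 12 (.node 0 (.cone 1) (.node 1 (.cone 3) (.cone 3))) (.prune (.cone 0))) (.prune
    (.cone 0))))))))) (.prune (.node 1 (.node 3 (.node 2 (.node 0 (.cone 5) (.node 4 (.cone 5)
    (.node 5 (.cone 7) (.node 11 (.cone 7) (.cone 7))))) (.prune (.node 4 (.node 0 (.cone 5)
    (.node 7 (.cone 5) (.node 12 (.cone 5) (.cone 5)))) (.prune (.node 7 (.node 5 (.cone 0)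
    (.node 11 (.cone 0) (.cone 0))) (.prune (.node 11 (.node 12 (.cone 0) (.cone 0)) (.cone
    0)))))))) (.prune (.node 12 (.node 2 (.node 0 (.cone 4) (.node 5 (.cone 4) (.node 11 (.cone
    4) (.cone 4)))) (.prune (.node 11 (.node 0 (.cone 4) (.node 4 (.cone 5) (.node 7 (.cone 5)
    (.cone 5)))) (.prune (.node 5 (.node 4 (.cone 0) (.node 7 (.cone 0) (.cone 0))) (.cone
    0)))))) (.prune (.node 5 (.node 7 (.cone 0) (.node 0 (.node 4 (.cone 2) (.cone 2)) (.cone
    2))) (.prune (.node 0 (.node 2 (.node 4 (.cone 7) (.cone 7)) (.prune (.cone 4))) (.prune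
    (.cone 2))))))))) (.prune (.node 0 (.node 7 (.node 5 (.cone 2) (.node 2 (.node 4 (.cone 3)
    (.node 12 (.cone 3) (.cone 3))) (.prune (.node 11 (.node 12 (.cone 3) (.cone 3)) (.cone
    3))))) (.prune (.node 11 (.node 12 (.node 2 (.cone 3) (.node 3 (.cone 4) (.node 5 (.cone 4)
    (.cone 4)))) (.prune (.node 4 (.node 2 (.cone 3) (.node 5 (.cone 3) (.cone 3))) (.prune
    (.cone 2))))) (.prune (.node 2 (.node 3 (.node 4 (.cone 5) (.cone 5)) (.prune (.cone 4)))
    (.prune (.cone 3))))))) (.prune (.node 5 (.node 7 (.cone 2) (.node 2 (.node 11 (.node 12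
    (.cone 3) (.cone 3)) (.cone 3)) (.cone 3))) (.prune (.cone 2))))))))) T1) (.prune (.node 12
    T2 (.prune (.node 0 (.node 3 (.node 4 (.node 1 (.cone 5) (.node 2 (.cone 5) (.node 5 (.node
    6 (.node 9 (.cone 7) (.node 11 (.cone 7) (.cone 7))) (.prune (.node 7 (.node 11 (.cone 9)
    (.cone 9)) (.cone 9)))) (.prune (.cone 6))))) (.prune (.node 7 (.node 9 (.node 1 (.cone 2)
    (.node 5 (.node 6 (.cone 2) (.node 11 (.cone 2) (.cone 2))) (.cone 2))) (.prune (.node 2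
    (.node 1 (.cone 5) (.node 5 (.node 11 (.cone 6) (.cone 6)) (.cone 6))) (.prune (.node 5
    (.node 6 (.node 11 (.cone 1) (.cone 1)) (.cone 1)) (.cone 1)))))) (.prune (.node 1 (.node 2
    (.cone 5) (.cone 5)) (.prune (.cone 2))))))) (.prune (.node 2 (.node 4 (.node 1 (.cone 5)
    (.node 7 (.node 6 (.cone 5) (.node 11 (.cone 5) (.cone 5))) (.cone 5))) (.prune (.node 5
    (.node 7 (.node 9 (.node 6 (.cone 1) (.node 11 (.cone 1) (.cone 1))) (.cone 1)) (.cone 1))
    (.cone 1)))) (.prune (.node 5 (.node 6 (.node 7 (.node 9 (.cone 1) (.node 4 (.node 11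
    (.cone 1) (.cone 1)) (.cone 1))) (.cone 1)) (.cone 1)) (.cone 1)))))) (.prune (.node 1
    (.node 2 (.node 3 (.node 4 (.cone 5) (.node 6 (.node 5 (.cone 7) (.node 9 (.node 11 (.cone
    7) (.cone 7)) (.cone 7))) (.prune (.cone 5)))) (.prune (.node 5 (.node 7 (.node 9 (.node 4
    (.cone 6) (.node 6 (.cone 11) (.cone 11))) (.prune (.cone 4))) (.prune (.cone 4))) (.prune
    (.cone 4))))) (.prune (.node 6 (.node 7 (.node 9 (.node 5 (.cone 3) (.node 3 (.node 11
    (.cone 4) (.cone 4)) (.cone 4))) (.prune (.cone 3))) (.prune (.cone 3))) (.prune (.cone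
    3))))) (.prune (.node 5 (.node 6 (.node 7 (.node 9 (.cone 2) (.node 2 (.node 3 (.node 11
    (.cone 4) (.cone 4)) (.cone 4)) (.prune (.cone 3)))) (.prune (.cone 2))) (.prune (.cone
    2))) (.prune (.cone 2)))))))))))

/-- A part of a certificate. -/
def T4 : Tr :=
  (.node 6 (.node 1 (.node 2 (.node 4 (.node 0 (.cone 5) (.node 3 (.cone 5) (.node 9 (.cone 5)
    (.node 12 (.cone 5) (.cone 5))))) (.prune (.node 9 (.node 0 (.cone 3) (.node 5 (.cone 3)
    (.node 7 (.cone 3) (.node 12 (.cone 3) (.cone 3))))) (.prune (.node 3 (.node 0 (.cone 5)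
    (.node 7 (.cone 5) (.node 12 (.cone 5) (.cone 5)))) (.prune (.node 12 (.node 5 (.cone 0)
    (.node 7 (.cone 0) (.cone 0))) (.cone 0)))))))) (.prune (.node 3 (.node 4 (.node 0 (.cone
    5) (.node 7 (.cone 5) (.node 12 (.cone 5) (.cone 5)))) (.prune (.node 7 (.node 9 (.cone 0)
    (.node 5 (.node 12 (.cone 0) (.cone 0)) (.cone 0))) (.prune (.node 5 (.node 9 (.node 12
    (.cone 0) (.cone 0)) (.cone 0)) (.cone 0)))))) (.prune (.node 5 (.node 7 (.node 9 (.cone 0)
    (.node 12 (.cone 0) (.cone 0))) (.prune (.node 4 (.node 12 (.cone 0) (.cone 0)) (.cone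
    0)))) (.cone 0)))))) (.prune (.node 3 (.node 5 (.node 7 (.node 2 (.cone 0) (.node 4 (.cone
    0) (.node 9 (.cone 0) (.cone 0)))) (.prune (.node 0 (.node 4 (.cone 2) (.node 2 (.node 12
    (.cone 9) (.cone 9)) (.cone 9))) (.prune (.node 2 (.node 9 (.node 12 (.cone 4) (.cone 4))
    (.cone 4)) (.cone 4)))))) (.prune (.node 0 (.node 2 (.node 4 (.cone 7) (.node 7 (.node 12
    (.cone 9) (.cone 9)) (.cone 9))) (.prune (.node 4 (.node 12 (.cone 7) (.cone 7)) (.cone
    7)))) (.prune (.node 2 (.node 4 (.node 9 (.node 12 (.cone 7) (.cone 7)) (.cone 7)) (.cone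
    7)) (.prune (.cone 4))))))) (.prune (.node 9 (.node 5 (.node 7 (.cone 0) (.node 0 (.node 4
    (.node 12 (.cone 2) (.cone 2)) (.cone 2)) (.cone 2))) (.prune (.node 0 (.node 2 (.node 7
    (.node 12 (.cone 4) (.cone 4)) (.cone 4)) (.cone 4)) (.prune (.cone 2))))) (.prune (.cone
    0))))))) (.prune (.node 0 (.node 3 (.node 1 (.node 2 (.cone 5) (.node 4 (.cone 5) (.node 5
    (.node 7 (.node 12 (.cone 9) (.cone 9)) (.cone 9)) (.prune (.cone 7))))) (.prune (.node 2
    (.node 4 (.cone 5) (.node 7 (.node 5 (.cone 9) (.node 12 (.cone 9) (.cone 9))) (.prune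
    (.cone 5)))) (.prune (.node 4 (.node 5 (.node 7 (.node 12 (.cone 9) (.cone 9)) (.cone 9))
    (.prune (.cone 7))) (.prune (.cone 5))))))) (.prune (.node 4 (.node 1 (.node 2 (.cone 5)
    (.node 5 (.node 12 (.cone 7) (.cone 7)) (.cone 7))) (.prune (.node 5 (.node 7 (.node 9
    (.node 12 (.cone 2) (.cone 2)) (.cone 2)) (.cone 2)) (.cone 2)))) (.prune (.node 2 (.node 5
    (.node 7 (.node 9 (.node 12 (.cone 1) (.cone 1)) (.cone 1)) (.cone 1)) (.cone 1)) (.cone
    1)))))) (.prune (.node 1 (.node 2 (.node 3 (.node 4 (.cone 5) (.node 7 (.node 9 (.node 12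
    (.cone 5) (.cone 5)) (.cone 5)) (.cone 5))) (.prune (.node 4 (.node 12 (.cone 5) (.node 7
    (.node 9 (.cone 5) (.cone 5)) (.cone 5))) (.cone 5)))) (.prune (.node 3 (.node 4 (.node 5
    (.node 7 (.node 12 (.cone 9) (.cone 9)) (.cone 9)) (.prune (.cone 7))) (.prune (.cone 5)))
    (.prune (.cone 4))))) (.prune (.node 2 (.node 3 (.node 4 (.node 5 (.node 7 (.node 12 (.cone
    9) (.cone 9)) (.cone 9)) (.prune (.cone 7))) (.prune (.cone 5))) (.prune (.cone 4)))
    (.prune (.cone 3)))))))))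

/-- A part of a certificate. -/
def T5 : Tr :=
  (.prune (.node 10 (.node 11 T4 (.prune (.node 1 (.node 2 (.node 4 (.node 0 (.cone 5) (.node 3
    (.cone 5) (.node 5 (.node 7 (.node 9 (.cone 6) (.node 12 (.cone 6) (.cone 6))) (.prune
    (.node 6 (.node 12 (.cone 9) (.cone 9)) (.cone 9)))) (.prune (.cone 6))))) (.prune (.node 6
    (.node 9 (.node 0 (.cone 3) (.node 5 (.node 7 (.cone 3) (.node 12 (.cone 3) (.cone 3)))
    (.cone 3))) (.prune (.node 3 (.node 0 (.cone 5) (.node 5 (.node 12 (.cone 7) (.cone 7))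
    (.cone 7))) (.prune (.node 5 (.node 7 (.node 12 (.cone 0) (.cone 0)) (.cone 0)) (.cone
    0)))))) (.prune (.node 0 (.node 3 (.cone 5) (.cone 5)) (.prune (.cone 3))))))) (.prune
    (.node 3 (.node 4 (.node 0 (.cone 5) (.node 6 (.node 7 (.cone 5) (.node 12 (.cone 5) (.cone
    5))) (.cone 5))) (.prune (.node 5 (.node 6 (.node 9 (.node 7 (.cone 0) (.node 12 (.cone 0)
    (.cone 0))) (.cone 0)) (.cone 0)) (.cone 0)))) (.prune (.node 5 (.node 6 (.node 7 (.node 9
    (.cone 0) (.node 4 (.node 12 (.cone 0) (.cone 0)) (.cone 0))) (.cone 0)) (.cone 0)) (.cone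
    0)))))) (.prune (.node 0 (.node 2 (.node 3 (.node 4 (.cone 5) (.node 7 (.node 5 (.cone 6)
    (.node 9 (.node 12 (.cone 6) (.cone 6)) (.cone 6))) (.prune (.cone 5)))) (.prune (.node 6
    (.node 7 (.node 9 (.node 5 (.cone 4) (.node 12 (.cone 4) (.cone 4))) (.cone 4)) (.cone 4))
    (.cone 4)))) (.prune (.node 5 (.node 6 (.node 9 (.node 7 (.cone 3) (.node 3 (.node 4 (.cone
    12) (.cone 12)) (.prune (.cone 4)))) (.prune (.cone 3))) (.prune (.cone 3))) (.prune (.cone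
    3))))) (.prune (.node 5 (.node 6 (.node 7 (.node 9 (.cone 2) (.node 2 (.node 3 (.node 12
    (.cone 4) (.cone 4)) (.cone 4)) (.prune (.cone 3)))) (.prune (.cone 2))) (.prune (.cone
    2))) (.prune (.cone 2))))))))) (.prune (.node 0 (.node 1 (.node 2 (.node 3 (.cone 5) (.node
    4 (.cone 5) (.node 6 (.node 7 (.node 9 (.node 12 (.cone 5) (.cone 5)) (.cone 5)) (.cone 5))
    (.cone 5)))) (.prune (.node 3 (.node 4 (.cone 5) (.node 6 (.node 7 (.node 9 (.node 11
    (.cone 5) (.cone 5)) (.cone 5)) (.cone 5)) (.cone 5))) (.prune (.node 4 (.node 5 (.node 11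
    (.node 12 (.cone 6) (.cone 6)) (.cone 6)) (.cone 6)) (.prune (.cone 5))))))) (.prune (.node
    2 (.node 3 (.node 4 (.cone 5) (.node 5 (.node 6 (.node 7 (.node 12 (.cone 9) (.cone 9))
    (.cone 9)) (.prune (.cone 7))) (.prune (.cone 6)))) (.prune (.node 5 (.node 6 (.node 7
    (.node 9 (.node 11 (.node 12 (.cone 4) (.cone 4)) (.cone 4)) (.cone 4)) (.cone 4)) (.cone
    4)) (.cone 4)))) (.prune (.node 3 (.node 4 (.node 6 (.node 5 (.node 9 (.cone 7) (.node 11
    (.cone 7) (.cone 7))) (.prune (.node 7 (.node 11 (.node 12 (.cone 9) (.cone 9)) (.cone 9))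
    (.cone 9)))) (.prune (.cone 5))) (.prune (.cone 5))) (.prune (.cone 4))))))) (.prune (.node
    1 (.node 2 (.node 3 (.node 4 (.cone 5) (.node 5 (.node 6 (.node 7 (.node 11 (.cone 9)
    (.cone 9)) (.cone 9)) (.prune (.cone 7))) (.prune (.cone 6)))) (.prune (.node 4 (.node 7
    (.node 5 (.node 9 (.cone 6) (.node 12 (.cone 6) (.cone 6))) (.prune (.node 6 (.node 11
    (.node 12 (.cone 9) (.cone 9)) (.cone 9)) (.cone 9)))) (.prune (.cone 5))) (.prune (.cone
    5))))) (.prune (.node 3 (.node 5 (.node 6 (.node 7 (.node 9 (.node 11 (.node 12 (.cone 4)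
    (.cone 4)) (.cone 4)) (.cone 4)) (.cone 4)) (.cone 4)) (.cone 4)) (.cone 4)))) (.prune
    (.node 2 (.node 3 (.node 5 (.node 6 (.node 7 (.node 11 (.node 12 (.cone 4) (.cone 4))
    (.cone 4)) (.cone 4)) (.cone 4)) (.cone 4)) (.cone 4)) (.prune (.cone 3))))))))))

/-- A certificate. -/
def sFin : Tr :=
  (.node 8 T3 T5)

/-- A part of a certificate. -/
def T6 : Tr :=
  (.node 10 (.node 7 (.node 1 (.node 0 (.cone 2) (.node 3 (.cone 2) (.node 2 (.cone 4) (.node 5
    (.cone 4) (.node 6 (.cone 4) (.node 9 (.cone 4) (.cone 4))))))) (.prune (.node 0 (.node 3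
    (.cone 2) (.node 2 (.cone 4) (.node 4 (.cone 5) (.node 6 (.cone 5) (.node 9 (.cone 5)
    (.cone 5)))))) (.prune (.node 5 (.node 3 (.cone 2) (.node 6 (.cone 2) (.node 9 (.cone 2)
    (.cone 2)))) (.prune (.node 9 (.node 3 (.cone 2) (.node 4 (.cone 2) (.node 6 (.cone 2)
    (.cone 2)))) (.cone 2)))))))) (.prune (.node 2 (.node 3 (.node 1 (.cone 0) (.node 0 (.cone
    4) (.node 5 (.cone 4) (.node 9 (.cone 4) (.cone 4))))) (.node 6 (.node 1 (.cone 0) (.node 0
    (.cone 4) (.node 5 (.cone 4) (.node 9 (.cone 4) (.cone 4))))) (.prune (.node 4 (.node 1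
    (.cone 0) (.node 9 (.cone 0) (.cone 0))) (.cone 0))))) (.prune (.node 6 (.node 1 (.node 0
    (.cone 3) (.node 3 (.cone 4) (.node 4 (.cone 5) (.node 9 (.cone 5) (.cone 5))))) (.prune
    (.node 0 (.node 3 (.cone 4) (.node 5 (.cone 4) (.node 9 (.cone 4) (.cone 4)))) (.prune
    (.node 9 (.node 4 (.cone 3) (.node 5 (.cone 3) (.cone 3))) (.cone 3)))))) (.prune (.node 4
    (.node 0 (.node 1 (.cone 3) (.node 3 (.cone 5) (.node 9 (.cone 5) (.cone 5)))) (.prune
    (.node 9 (.node 1 (.cone 3) (.node 3 (.cone 5) (.cone 5))) (.prune (.cone 1))))) (.prune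
    (.cone 0))))))))) (.prune (.node 2 (.node 0 (.node 3 (.node 1 (.cone 4) (.node 4 (.cone 5)
    (.node 7 (.cone 5) (.node 6 (.node 9 (.cone 5) (.cone 5)) (.cone 5))))) (.prune (.node 4
    (.node 1 (.cone 5) (.node 7 (.cone 5) (.node 5 (.node 6 (.cone 9) (.cone 9)) (.prune (.cone
    6))))) (.prune (.node 5 (.node 7 (.node 6 (.cone 1) (.node 9 (.cone 1) (.cone 1))) (.prune
    (.node 1 (.node 6 (.cone 9) (.cone 9)) (.prune (.cone 6))))) (.prune (.node 7 (.node 6
    (.node 9 (.cone 1) (.cone 1)) (.cone 1)) (.cone 1)))))))) (.prune (.node 3 (.node 1 (.node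
    4 (.cone 5) (.node 6 (.cone 5) (.node 5 (.node 7 (.cone 9) (.cone 9)) (.prune (.cone 7)))))
    (.prune (.node 5 (.node 7 (.node 6 (.cone 4) (.node 9 (.cone 4) (.cone 4))) (.prune (.node
    4 (.node 6 (.cone 9) (.cone 9)) (.prune (.cone 6))))) (.prune (.node 4 (.node 7 (.node 9
    (.cone 6) (.cone 6)) (.cone 6)) (.cone 6)))))) (.prune (.node 4 (.node 1 (.node 7 (.cone 5)
    (.node 5 (.node 6 (.cone 9) (.cone 9)) (.prune (.cone 6)))) (.prune (.node 5 (.node 7
    (.node 6 (.cone 9) (.cone 9)) (.prune (.cone 6))) (.prune (.cone 6))))) (.prune (.node 5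
    (.node 7 (.node 6 (.node 9 (.cone 1) (.cone 1)) (.cone 1)) (.cone 1)) (.cone 1))))))))
    (.prune (.node 5 (.node 7 (.node 0 (.node 3 (.cone 1) (.node 4 (.cone 1) (.node 6 (.cone 1)
    (.cone 1)))) (.prune (.node 9 (.node 6 (.cone 1) (.node 1 (.node 4 (.cone 3) (.cone 3))
    (.cone 3))) (.prune (.cone 1))))) (.prune (.node 1 (.node 4 (.node 0 (.cone 3) (.node 6
    (.node 9 (.cone 3) (.cone 3)) (.cone 3))) (.prune (.node 3 (.node 6 (.node 9 (.cone 0)
    (.cone 0)) (.cone 0)) (.cone 0)))) (.prune (.node 0 (.node 3 (.node 4 (.cone 6) (.cone 6))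
    (.prune (.cone 4))) (.prune (.cone 3))))))) (.prune (.node 3 (.node 0 (.node 4 (.cone 1)
    (.node 7 (.node 6 (.cone 1) (.node 9 (.cone 1) (.cone 1))) (.cone 1))) (.prune (.node 1
    (.node 7 (.node 6 (.node 9 (.cone 4) (.cone 4)) (.cone 4)) (.cone 4)) (.cone 4)))) (.prune
    (.cone 0)))))))))

/-- A part of a certificate. -/
def T7 : Tr :=
  (.prune (.node 5 (.node 7 (.node 6 (.node 10 (.cone 0) (.node 9 (.cone 0) (.node 0 (.node 3
    (.cone 1) (.node 4 (.cone 1) (.cone 1))) (.prune (.node 3 (.node 2 (.cone 1) (.cone 1))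
    (.cone 1)))))) (.prune (.node 9 (.node 10 (.cone 0) (.node 0 (.node 3 (.cone 1) (.node 2
    (.cone 1) (.cone 1))) (.prune (.node 1 (.node 2 (.node 4 (.cone 3) (.cone 3)) (.cone 3))
    (.prune (.cone 2)))))) (.prune (.node 0 (.node 3 (.node 2 (.cone 1) (.node 4 (.cone 1)
    (.node 10 (.cone 1) (.cone 1)))) (.prune (.node 4 (.node 2 (.cone 1) (.node 10 (.cone 1)
    (.cone 1))) (.cone 1)))) (.prune (.node 1 (.node 3 (.node 2 (.node 4 (.cone 10) (.cone 10))
    (.prune (.cone 4))) (.prune (.cone 2))) (.prune (.cone 2))))))))) (.prune (.node 3 (.node 2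
    (.node 1 (.node 0 (.cone 4) (.node 4 (.cone 6) (.node 6 (.cone 9) (.cone 9)))) (.prune
    (.node 4 (.node 0 (.cone 6) (.node 10 (.node 9 (.cone 6) (.cone 6)) (.cone 6))) (.prune
    (.node 6 (.node 10 (.node 9 (.cone 0) (.cone 0)) (.cone 0)) (.cone 0)))))) (.prune (.node 0
    (.node 4 (.node 1 (.cone 6) (.node 6 (.cone 9) (.node 10 (.cone 9) (.cone 9)))) (.prune
    (.node 6 (.node 10 (.node 9 (.cone 1) (.cone 1)) (.cone 1)) (.cone 1)))) (.prune (.node 6
    (.node 10 (.node 9 (.cone 1) (.cone 1)) (.cone 1)) (.cone 1)))))) (.prune (.node 10 (.node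
    6 (.node 9 (.cone 0) (.node 0 (.node 4 (.cone 1) (.cone 1)) (.cone 1))) (.prune (.node 1
    (.node 0 (.node 4 (.cone 2) (.cone 2)) (.cone 2)) (.prune (.cone 0))))) (.prune (.node 1
    (.node 0 (.node 2 (.node 4 (.cone 6) (.cone 6)) (.prune (.cone 4))) (.prune (.cone 2)))
    (.prune (.cone 0))))))))) (.prune (.node 3 (.node 1 (.node 0 (.node 2 (.cone 4) (.node 4
    (.cone 6) (.node 7 (.node 10 (.cone 6) (.node 9 (.cone 6) (.cone 6))) (.cone 6)))) (.prune
    (.node 2 (.node 4 (.cone 6) (.node 6 (.node 10 (.cone 7) (.node 9 (.cone 7) (.cone 7)))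
    (.cone 7))) (.prune (.node 7 (.node 6 (.node 10 (.cone 4) (.node 9 (.cone 4) (.cone 4)))
    (.cone 4)) (.cone 4)))))) (.prune (.node 2 (.node 4 (.node 0 (.cone 6) (.node 10 (.node 9
    (.cone 6) (.cone 6)) (.cone 6))) (.prune (.node 6 (.node 10 (.node 9 (.cone 0) (.cone 0))
    (.cone 0)) (.cone 0)))) (.prune (.node 7 (.node 6 (.node 10 (.node 9 (.cone 0) (.cone 0))
    (.cone 0)) (.cone 0)) (.cone 0)))))) (.prune (.node 2 (.node 0 (.node 4 (.node 1 (.cone 6)
    (.node 7 (.cone 6) (.node 6 (.node 10 (.cone 9) (.cone 9)) (.cone 9)))) (.prune (.node 6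
    (.node 10 (.node 9 (.cone 1) (.cone 1)) (.cone 1)) (.cone 1)))) (.prune (.node 10 (.node 9
    (.node 7 (.node 4 (.cone 1) (.node 6 (.cone 1) (.cone 1))) (.prune (.node 1 (.node 6 (.cone
    4) (.cone 4)) (.cone 4)))) (.prune (.cone 1))) (.prune (.cone 1))))) (.prune (.node 7
    (.node 6 (.node 10 (.node 9 (.cone 0) (.cone 0)) (.cone 0)) (.cone 0)) (.cone 0)))))))))

/-- A part of a certificate. -/
def T8 : Tr :=
  (.node 6 (.node 1 (.node 2 (.node 4 (.node 0 (.cone 3) (.node 3 (.cone 5) (.node 9 (.cone 5)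
    (.node 12 (.cone 5) (.cone 5))))) (.prune (.node 9 (.node 0 (.cone 3) (.node 5 (.cone 3)
    (.node 7 (.cone 3) (.node 12 (.cone 3) (.cone 3))))) (.prune (.node 3 (.node 0 (.cone 5)
    (.node 7 (.cone 5) (.node 12 (.cone 5) (.cone 5)))) (.prune (.node 12 (.node 5 (.cone 0)
    (.node 7 (.cone 0) (.cone 0))) (.cone 0)))))))) (.prune (.node 3 (.node 4 (.node 0 (.cone
    5) (.node 7 (.cone 5) (.node 12 (.cone 5) (.cone 5)))) (.prune (.node 7 (.node 9 (.cone 0)
    (.node 5 (.node 12 (.cone 0) (.cone 0)) (.cone 0))) (.prune (.node 5 (.node 9 (.node 12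
    (.cone 0) (.cone 0)) (.cone 0)) (.cone 0)))))) (.prune (.node 5 (.node 7 (.node 9 (.cone 0)
    (.node 12 (.cone 0) (.cone 0))) (.prune (.node 4 (.node 12 (.cone 0) (.cone 0)) (.cone
    0)))) (.cone 0)))))) (.prune (.node 3 (.node 5 (.node 7 (.node 2 (.cone 0) (.node 4 (.cone
    0) (.node 9 (.cone 0) (.cone 0)))) (.prune (.node 0 (.node 4 (.cone 2) (.node 2 (.node 12
    (.cone 9) (.cone 9)) (.cone 9))) (.prune (.node 2 (.node 9 (.node 12 (.cone 4) (.cone 4))
    (.cone 4)) (.cone 4)))))) (.prune (.node 0 (.node 2 (.node 4 (.cone 7) (.node 7 (.node 12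
    (.cone 9) (.cone 9)) (.cone 9))) (.prune (.node 4 (.node 12 (.cone 7) (.cone 7)) (.cone
    7)))) (.prune (.node 2 (.node 4 (.node 9 (.node 12 (.cone 7) (.cone 7)) (.cone 7)) (.cone
    7)) (.prune (.cone 4))))))) (.prune (.node 9 (.node 5 (.node 7 (.cone 0) (.node 0 (.node 4
    (.node 12 (.cone 2) (.cone 2)) (.cone 2)) (.cone 2))) (.prune (.node 0 (.node 2 (.node 7
    (.node 12 (.cone 4) (.cone 4)) (.cone 4)) (.cone 4)) (.prune (.cone 2))))) (.prune (.cone
    0))))))) (.prune (.node 0 (.node 3 (.node 1 (.node 2 (.cone 4) (.node 4 (.cone 5) (.node 5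
    (.node 7 (.node 12 (.cone 9) (.cone 9)) (.cone 9)) (.prune (.cone 7))))) (.prune (.node 2
    (.node 4 (.cone 5) (.node 7 (.node 5 (.cone 9) (.node 12 (.cone 9) (.cone 9))) (.prune
    (.cone 5)))) (.prune (.node 4 (.node 5 (.node 7 (.node 12 (.cone 9) (.cone 9)) (.cone 9))
    (.prune (.cone 7))) (.prune (.cone 5))))))) (.prune (.node 4 (.node 1 (.node 2 (.cone 5)
    (.node 5 (.node 12 (.cone 7) (.cone 7)) (.cone 7))) (.prune (.node 5 (.node 7 (.node 9
    (.node 12 (.cone 2) (.cone 2)) (.cone 2)) (.cone 2)) (.cone 2)))) (.prune (.node 2 (.node 5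
    (.node 7 (.node 9 (.node 12 (.cone 1) (.cone 1)) (.cone 1)) (.cone 1)) (.cone 1)) (.cone
    1)))))) (.prune (.node 1 (.node 3 (.node 2 (.node 4 (.cone 5) (.node 7 (.node 9 (.node 12
    (.cone 5) (.cone 5)) (.cone 5)) (.cone 5))) (.prune (.node 4 (.node 5 (.node 7 (.node 12
    (.cone 9) (.cone 9)) (.cone 9)) (.prune (.cone 7))) (.prune (.cone 5))))) (.prune (.node 2
    (.node 4 (.node 12 (.cone 5) (.node 7 (.node 9 (.cone 5) (.cone 5)) (.cone 5))) (.cone 5))
    (.prune (.cone 4))))) (.prune (.node 3 (.node 2 (.node 4 (.node 5 (.node 7 (.node 12 (.cone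
    9) (.cone 9)) (.cone 9)) (.prune (.cone 7))) (.prune (.cone 5))) (.prune (.cone 4)))
    (.prune (.cone 2)))))))))

/-- A certificate. -/
def sL1 : Tr :=
  (.node 8 (.node 12 T6 T7) (.prune (.node 10 T8 (.prune (.node 1 (.node 0 (.node 3 (.node 2
    (.cone 4) (.node 4 (.cone 5) (.node 7 (.node 6 (.node 9 (.cone 5) (.cone 5)) (.cone 5))
    (.cone 5)))) (.prune (.node 2 (.node 4 (.cone 5) (.node 7 (.node 6 (.node 9 (.node 12
    (.cone 5) (.cone 5)) (.cone 5)) (.cone 5)) (.cone 5))) (.prune (.node 4 (.node 5 (.node 12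
    (.cone 6) (.cone 6)) (.cone 6)) (.prune (.cone 5))))))) (.prune (.node 3 (.node 2 (.node 4
    (.cone 5) (.node 5 (.node 7 (.node 6 (.cone 9) (.cone 9)) (.prune (.cone 6))) (.prune
    (.cone 6)))) (.prune (.node 5 (.node 7 (.node 6 (.node 9 (.node 12 (.cone 4) (.cone 4))
    (.cone 4)) (.cone 4)) (.cone 4)) (.cone 4)))) (.prune (.node 2 (.node 4 (.node 7 (.node 5
    (.node 9 (.cone 6) (.node 12 (.cone 6) (.cone 6))) (.prune (.node 6 (.node 12 (.cone 9)
    (.cone 9)) (.cone 9)))) (.prune (.cone 5))) (.prune (.cone 5))) (.prune (.cone 4)))))))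
    (.prune (.node 0 (.node 3 (.node 2 (.node 4 (.cone 5) (.node 5 (.node 7 (.node 6 (.node 12
    (.cone 9) (.cone 9)) (.cone 9)) (.prune (.cone 6))) (.prune (.cone 6)))) (.prune (.node 4
    (.node 6 (.node 5 (.cone 7) (.node 7 (.node 12 (.cone 9) (.cone 9)) (.cone 9))) (.prune
    (.cone 5))) (.prune (.cone 5))))) (.prune (.node 2 (.node 5 (.node 7 (.node 6 (.node 9
    (.node 12 (.cone 4) (.cone 4)) (.cone 4)) (.cone 4)) (.cone 4)) (.cone 4)) (.cone 4))))
    (.prune (.node 3 (.node 2 (.node 5 (.node 7 (.node 6 (.node 12 (.cone 4) (.cone 4)) (.cone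
    4)) (.cone 4)) (.cone 4)) (.cone 4)) (.prune (.cone 2)))))))))))

/-- A part of a certificate. -/
def T9 : Tr :=
  (.node 5 (.node 7 (.node 6 (.node 9 (.cone 0) (.node 10 (.cone 0) (.node 0 (.node 3 (.cone 1)
    (.node 4 (.cone 1) (.cone 1))) (.prune (.node 2 (.node 3 (.cone 1) (.cone 1)) (.cone
    1)))))) (.prune (.node 9 (.node 10 (.cone 0) (.node 0 (.node 2 (.cone 1) (.node 3 (.cone 1)
    (.cone 1))) (.prune (.node 1 (.node 2 (.node 4 (.cone 3) (.cone 3)) (.cone 3)) (.prune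
    (.cone 2)))))) (.prune (.node 0 (.node 3 (.node 2 (.cone 1) (.node 4 (.cone 1) (.node 10
    (.cone 1) (.cone 1)))) (.prune (.node 4 (.node 2 (.cone 1) (.node 10 (.cone 1) (.cone 1)))
    (.cone 1)))) (.prune (.node 1 (.node 2 (.node 3 (.node 4 (.cone 10) (.cone 10)) (.prune
    (.cone 4))) (.prune (.cone 3))) (.prune (.cone 2))))))))) (.prune (.node 3 (.node 2 (.node
    1 (.node 0 (.cone 4) (.node 4 (.cone 6) (.node 6 (.cone 9) (.cone 9)))) (.prune (.node 4
    (.node 0 (.cone 6) (.node 9 (.node 10 (.cone 6) (.cone 6)) (.cone 6))) (.prune (.node 6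
    (.node 9 (.node 10 (.cone 0) (.cone 0)) (.cone 0)) (.cone 0)))))) (.prune (.node 0 (.node 4
    (.node 1 (.cone 6) (.node 6 (.cone 9) (.node 10 (.cone 9) (.cone 9)))) (.prune (.node 6
    (.node 9 (.node 10 (.cone 1) (.cone 1)) (.cone 1)) (.cone 1)))) (.prune (.node 6 (.node 9
    (.node 10 (.cone 1) (.cone 1)) (.cone 1)) (.cone 1)))))) (.prune (.node 10 (.node 6 (.node
    9 (.cone 0) (.node 0 (.node 4 (.cone 1) (.cone 1)) (.cone 1))) (.prune (.node 0 (.node 1
    (.node 4 (.cone 2) (.cone 2)) (.cone 2)) (.prune (.cone 1))))) (.prune (.node 0 (.node 1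
    (.node 2 (.node 4 (.cone 6) (.cone 6)) (.prune (.cone 4))) (.prune (.cone 2))) (.prune
    (.cone 1))))))))) (.prune (.node 2 (.node 3 (.node 1 (.node 0 (.cone 4) (.node 4 (.cone 6)
    (.node 6 (.node 9 (.cone 7) (.node 10 (.cone 7) (.cone 7))) (.cone 7)))) (.prune (.node 4
    (.node 0 (.cone 6) (.node 9 (.node 10 (.cone 6) (.cone 6)) (.cone 6))) (.prune (.node 6
    (.node 9 (.node 10 (.cone 0) (.cone 0)) (.cone 0)) (.cone 0)))))) (.prune (.node 0 (.node 4
    (.node 1 (.cone 6) (.node 7 (.cone 6) (.node 6 (.node 10 (.cone 9) (.cone 9)) (.cone 9))))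
    (.prune (.node 6 (.node 9 (.node 10 (.cone 1) (.cone 1)) (.cone 1)) (.cone 1)))) (.prune
    (.node 9 (.node 10 (.node 6 (.node 1 (.cone 4) (.node 7 (.cone 4) (.cone 4))) (.prune
    (.node 4 (.node 7 (.cone 1) (.cone 1)) (.cone 1)))) (.prune (.cone 1))) (.prune (.cone
    1))))))) (.prune (.node 1 (.node 3 (.node 0 (.node 4 (.cone 6) (.node 7 (.node 9 (.cone 6)
    (.node 10 (.cone 6) (.cone 6))) (.cone 6))) (.prune (.node 6 (.node 7 (.node 9 (.cone 4)
    (.node 10 (.cone 4) (.cone 4))) (.cone 4)) (.cone 4)))) (.prune (.node 6 (.node 7 (.node 9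
    (.node 10 (.cone 0) (.cone 0)) (.cone 0)) (.cone 0)) (.cone 0)))) (.prune (.node 6 (.node 7
    (.node 9 (.node 10 (.cone 0) (.cone 0)) (.cone 0)) (.cone 0)) (.cone 0))))))))

/-- A certificate. -/
def sL2 : Tr :=
  (.prune (.node 8 T9 (.prune (.node 1 (.node 2 (.node 0 (.node 3 (.cone 4) (.node 4 (.cone 5)
    (.node 6 (.node 9 (.node 10 (.cone 5) (.cone 5)) (.cone 5)) (.cone 5)))) (.prune (.node 4
    (.node 3 (.cone 5) (.node 9 (.node 7 (.node 5 (.cone 6) (.node 10 (.cone 6) (.cone 6)))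
    (.prune (.node 6 (.node 10 (.cone 5) (.cone 5)) (.cone 5)))) (.prune (.cone 5)))) (.prune
    (.node 6 (.node 7 (.node 3 (.node 5 (.cone 9) (.node 10 (.cone 9) (.cone 9))) (.prune
    (.node 9 (.node 10 (.cone 5) (.cone 5)) (.cone 5)))) (.prune (.node 5 (.node 9 (.node 10
    (.cone 3) (.cone 3)) (.cone 3)) (.cone 3)))) (.prune (.cone 3))))))) (.prune (.node 3
    (.node 0 (.node 4 (.cone 5) (.node 6 (.node 7 (.node 9 (.cone 5) (.cone 5)) (.cone 5))
    (.cone 5))) (.prune (.node 6 (.node 7 (.node 10 (.node 4 (.cone 5) (.node 9 (.cone 5)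
    (.cone 5))) (.prune (.cone 4))) (.prune (.cone 4))) (.prune (.cone 4))))) (.prune (.node 5
    (.node 6 (.node 7 (.node 9 (.node 10 (.cone 0) (.cone 0)) (.cone 0)) (.cone 0)) (.cone 0))
    (.cone 0)))))) (.prune (.node 3 (.node 4 (.node 0 (.node 2 (.cone 5) (.node 5 (.node 6
    (.cone 7) (.cone 7)) (.prune (.cone 6)))) (.prune (.node 5 (.node 6 (.node 7 (.node 10
    (.cone 2) (.cone 2)) (.cone 2)) (.cone 2)) (.cone 2)))) (.prune (.node 5 (.node 7 (.node 10
    (.node 2 (.node 0 (.cone 6) (.node 6 (.cone 9) (.cone 9))) (.prune (.node 6 (.node 9 (.cone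
    0) (.cone 0)) (.cone 0)))) (.prune (.cone 0))) (.prune (.cone 0))) (.prune (.cone 0)))))
    (.prune (.node 5 (.node 6 (.node 7 (.node 9 (.node 10 (.cone 0) (.cone 0)) (.cone 0))
    (.cone 0)) (.cone 0)) (.cone 0)))))))))

theorem ck_fin : check1 tyc false sFin MM (2 ^ 13 - 1) 4 = true := by decide +kernel

theorem ck_1 : check1 tyc true sL1 (MM.filter fun m => m.testBit 11) (2 ^ 11 - 1 + 2 ^ 12) 4 =
    true := by
  decide +kernel

theorem ck_2 : check1 tyc true sL2 (MM.filter fun m => m.testBit 11) (2 ^ 11 - 1) 4 = true := by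
  decide +kernel

end Pool.Agent.H393.EW
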