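import Pool.Agent.H393.EW.Grp3
import Pool.Agent.H393.EW.Data
import Pool.Agent.H393.EX.Win1
import Pool.Agent.H393.EV.Orbit

/-! The complex on the eleven points and one regular orbit of new vertices: the strategies.
(helper393; complex of helper60 and helper702) -/

set_option autoImplicit false

namespace Pool.Agent.H393.EW

open Pool.Agent.H571R3 Pool.Agent.R282.EV Pool.Agent.H684.EV Pool.Agent.H393.EV
open Pool.Agent.H393.EX (A5s W1E w1e_search check1_sound)

theorem F1 : ∀ m ∈ MM, m < 2 ^ 13 := by decide +kernel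

theorem inv5 : ∀ m ∈ MM, ∃ m' ∈ MM, ∀ i : Fin 11, m.testBit i.val = true →
    m'.testBit (J2 (a5, b5) i).val = true := by
  decide +kernel

theorem inv3 : ∀ m ∈ MM, ∃ m' ∈ MM, ∀ i : Fin 11, m.testBit i.val = true →
    m'.testBit (J2 (a3, b3) i).val = true := by
  decide +kernel

theorem F4 : ∀ m ∈ MM, ∃ m' ∈ MM, ∀ i < 13, m.testBit i = true → m'.testBit (tau i) = true := by
  decide +kernel

theorem inv_word (l : List Bool) : ∀ m ∈ MM, ∃ m' ∈ MM, ∀ i : Fin 11, m.testBit i.val = true →
    m'.testBit (J2 (evQ l) i).val = true := by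
  induction l with
  | nil =>
    intro m hm
    refine ⟨m, hm, fun i hi => ?_⟩
    show m.testBit (J2 1 i).val = true
    rw [map_one]
    exact hi
  | cons b l ih =>
    intro m hm
    obtain ⟨m1, hm1, h1⟩ := ih m hm
    cases b
    · obtain ⟨m2, hm2, h2⟩ := inv3 m1 hm1
      refine ⟨m2, hm2, fun i hi => ?_⟩
      show m2.testBit (J2 ((a3, b3) * evQ l) i).val = true
      rw [map_mul]
      exact h2 _ (h1 i hi)
    · obtain ⟨m2, hm2, h2⟩ := inv5 m1 hm1
      refine ⟨m2, hm2, fun i hi => ?_⟩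
      show m2.testBit (J2 ((a5, b5) * evQ l) i).val = true
      rw [map_mul]
      exact h2 _ (h1 i hi)

theorem inv_all (g : A5s) : ∀ m ∈ MM, ∃ m' ∈ MM, ∀ i : Fin 11, m.testBit i.val = true →
    m'.testBit (act11 g i).val = true := by
  obtain ⟨l, rfl⟩ := all_words g
  rw [act11_wG]
  exact inv_word l

/-- The vertices. -/
abbrev VV : Type := Fin 11 ⊕ A5s

/-- The action. -/
noncomputable def aV : A5s →* Equiv.Perm VV := MonoidHom.mk'
  (fun g => Equiv.sumCongr (act11 g) (Equiv.mulLeft g)) (by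
    intro g h
    apply Equiv.ext
    rintro (x | x)
    · show (Sum.inl (act11 (g * h) x) : VV) = Sum.inl (act11 g (act11 h x))
      rw [map_mul]
      rfl
    · show (Sum.inr (g * h * x) : VV) = Sum.inr (g * (h * x))
      rw [mul_assoc])

theorem aV_inl (g : A5s) (x : Fin 11) : aV g (Sum.inl x) = Sum.inl (act11 g x) := rfl

theorem aV_inr (g k : A5s) : aV g (Sum.inr k) = Sum.inr (g * k) := rfl

/-- The chart. -/
noncomputable def psi (i : ℕ) : VV :=
  if h : i < 11 then Sum.inl ⟨i, h⟩ else if i = 11 then Sum.inr 1 else Sum.inr hz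

theorem psi_lt (i : ℕ) (h : i < 11) : psi i = Sum.inl ⟨i, h⟩ := dif_pos h

theorem psi11 : psi 11 = Sum.inr 1 := by
  unfold psi; rw [dif_neg (by norm_num), if_pos rfl]

theorem psi12 : psi 12 = Sum.inr hz := by
  unfold psi; rw [dif_neg (by norm_num), if_neg (by norm_num)]

theorem psi_inj (i i' : ℕ) (hi : i < 13) (hi' : i' < 13) (h : psi i = psi i') : i = i' := by
  have c : ∀ i < 13, i < 11 ∨ i = 11 ∨ i = 12 := by intro i hi; omega
  rcases c i hi with h1 | rfl | rfl <;> rcases c i' hi' with h2 | rfl | rfl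
  · rw [psi_lt i h1, psi_lt i' h2] at h
    exact congrArg Fin.val (Sum.inl_injective h)
  · rw [psi_lt i h1, psi11] at h; cases h
  · rw [psi_lt i h1, psi12] at h; cases h
  · rw [psi_lt i' h2, psi11] at h; cases h
  · rfl
  · rw [psi11, psi12] at h; exact absurd (Sum.inr_injective h).symm hz_ne
  · rw [psi_lt i' h2, psi12] at h; cases h
  · rw [psi11, psi12] at h; exact absurd (Sum.inr_injective h) hz_ne
  · rfl

theorem bit_lt (m : ℕ) (hm : m ∈ MM) (i : ℕ) (hi : m.testBit i = true) : i < 13 := by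
  by_contra h
  have h2 : m < 2 ^ i := (F1 m hm).trans_le (Nat.pow_le_pow_right (by norm_num) (by omega))
  rw [Nat.testBit_lt_two_pow h2] at hi
  exact Bool.noConfusion hi

/-- A symmetry of the chart. -/
def Gd (g : A5s) : Prop := ∀ m ∈ MM, ∃ m' ∈ MM, ∀ i, m.testBit i = true →
  ∃ i', m'.testBit i' = true ∧ aV g (psi i) = psi i'

theorem gd_one : Gd 1 := fun m hm => ⟨m, hm, fun i hi => ⟨i, hi, by rw [map_one]; rfl⟩⟩

theorem aV_hz (i : ℕ) (hi : i < 13) : aV hz (psi i) = psi (tau i) := by
  have c : i < 11 ∨ i = 11 ∨ i = 12 := by omega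
  rcases c with h1 | rfl | rfl
  · have h2 := TT1 ⟨i, h1⟩
    have h3 : (J2 (evQ [false, true, false, true, true, true, true]) ⟨i, h1⟩) = act11 hz ⟨i, h1⟩ := by
      unfold hz
      rw [act11_wG]
    rw [h3] at h2
    simp only at h2
    have h4 : tau i < 11 := by rw [h2]; exact (act11 hz ⟨i, h1⟩).isLt
    rw [psi_lt i h1, psi_lt _ h4, aV_inl]
    congr 1
    exact Fin.ext h2.symm
  · show aV hz (psi 11) = psi 12
    rw [psi11, psi12, aV_inr, mul_one]
  · show aV hz (psi 12) = psi 11
    rw [psi11, psi12, aV_inr, hzz]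

theorem gd_hz : Gd hz := by
  intro m hm
  obtain ⟨m', hm', h⟩ := F4 m hm
  refine ⟨m', hm', fun i hi => ?_⟩
  have h1 := bit_lt m hm i hi
  exact ⟨tau i, h i h1 hi, aV_hz i h1⟩

/-- The exchange relation. -/
def EE (u v : VV) : Prop :=
  (∃ x y : Fin 11, u = Sum.inl x ∧ v = Sum.inl y ∧ bk x = bk y) ∨
    ∃ g k : A5s, u = Sum.inr g ∧ v = Sum.inr k

theorem EE_aV (g : A5s) (u v : VV) (h : EE u v) : EE (aV g u) (aV g v) := by
  rcases h with ⟨x, y, rfl, rfl, h⟩ | ⟨k, k', rfl, rfl⟩
  · exact Or.inl ⟨act11 g x, act11 g y, rfl, rfl, by rw [act11_bk, act11_bk, h]⟩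
  · exact Or.inr ⟨g * k, g * k', rfl, rfl⟩

theorem tyc_lt : ∀ i < 13, (tyc i < 2 ↔ i < 11) := by decide +kernel

theorem tyc_bk : ∀ i < 11, ∀ i' < 11, tyc i = tyc i' →
    bk ⟨i % 11, Nat.mod_lt _ (by norm_num)⟩ = bk ⟨i' % 11, Nat.mod_lt _ (by norm_num)⟩ := by
  decide +kernel

theorem old_E (i j : ℕ) (hi : i < 13) (hj : j < 13) (ho : tyc i < 2) (he : tyc i = tyc j) :
    EE (psi i) (psi j) := by
  have h1 := (tyc_lt i hi).1 ho
  have ho' : tyc j < 2 := he ▸ ho
  have h2 := (tyc_lt j hj).1 ho'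
  refine Or.inl ⟨⟨i, h1⟩, ⟨j, h2⟩, psi_lt i h1, psi_lt j h2, ?_⟩
  have h := tyc_bk i h1 j h2 he
  simp only [Nat.mod_eq_of_lt h1, Nat.mod_eq_of_lt h2] at h
  exact h

theorem new_psi (i : ℕ) (hi : i < 13) (ho : ¬ tyc i < 2) : psi i = Sum.inr 1 ∨ psi i = Sum.inr hz := by
  have h1 : ¬ i < 11 := fun h => ho ((tyc_lt i hi).2 h)
  have c : i = 11 ∨ i = 12 := by omega
  rcases c with rfl | rfl
  · exact Or.inl psi11
  · exact Or.inr psi12

/-- The branch where a new vertex outside the chart is present. -/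
theorem br (R : ℕ) (hR : ∀ i, R.testBit i = true → i < 13 ∧ i ≠ 11) (t : Tr)
    (hc : check1 tyc true t (MM.filter fun m => m.testBit 11) R 4 = true) (g : A5s) (N : Set VV)
    (hRN : ∀ i, R.testBit i = true → aV g (psi i) ∉ N)
    (hcomp : ∀ X : Set VV, Disjoint X N → ∀ i, i < 13 → i ≠ 11 → aV g (psi i) ∈ X →
      R.testBit i = true)
    (z0 : A5s) (hz0 : (Sum.inr z0 : VV) ∈ N)
    (y : A5s) (hyg : y ≠ g) (hyN : (Sum.inr y : VV) ∉ N) (hyh : y ≠ g * hz) :
    W1E EE (Sorb aV psi MM) (insert (Sum.inr g) ∅) N := by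
  have hg11 : aV g (psi 11) = Sum.inr g := by rw [psi11, aV_inr, mul_one]
  have key : ∀ X : Set VV, (Sum.inr g : VV) ∈ X → Sorb aV psi MM X →
      ∃ m' ∈ MM, m'.testBit 11 = true ∧ ∀ x ∈ X, ∃ i, m'.testBit i = true ∧
        x = aV g (psi i) := by
    rintro X hwX ⟨g', m, hm, h⟩
    obtain ⟨i0, hi0, he0⟩ := h _ hwX
    have hi0l := bit_lt m hm i0 hi0
    have hgd : Gd (g⁻¹ * g') := by
      have h1 : ¬ i0 < 11 := by
        intro h1
        rw [psi_lt i0 h1, aV_inl] at he0
        cases he0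
      have c : i0 = 11 ∨ i0 = 12 := by omega
      rcases c with rfl | rfl
      · rw [psi11, aV_inr, mul_one] at he0
        rw [Sum.inr_injective he0, inv_mul_cancel]
        exact gd_one
      · rw [psi12, aV_inr] at he0
        have e : g⁻¹ * g' = hz := by
          rw [Sum.inr_injective he0, mul_inv_rev, mul_assoc, inv_mul_cancel, mul_one]
          exact inv_eq_of_mul_eq_one_right hzz
        rw [e]
        exact gd_hz
    obtain ⟨m', hm', h'⟩ := hgd m hm
    have key : ∀ x ∈ X, ∃ i, m'.testBit i = true ∧ x = aV g (psi i) := by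
      intro x hx
      obtain ⟨i, hi, hxe⟩ := h x hx
      obtain ⟨i', hi', he'⟩ := h' i hi
      refine ⟨i', hi', ?_⟩
      rw [← he', map_mul, Equiv.Perm.mul_apply, app_inv]
      exact hxe
    refine ⟨m', hm', ?_, key⟩
    obtain ⟨i, hi, he⟩ := key _ hwX
    have h2 : psi 11 = psi i := (aV g).injective (hg11.trans he)
    rw [psi_inj 11 i (by norm_num) (bit_lt m' hm' i hi) h2]
    exact hi
  refine check1_sound EE _ (fun i => aV g (psi i)) tyc true (fun k => k < 2) t _ R 4 hc ?_ ?_
    _ _ ?_ ?_ ?_ ⟨fun Y => Y ⊆ {Sum.inr g}, fun X hTX hXN => ?_⟩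
  · intro i i' hi hi' h
    exact psi_inj i i' (hR i hi).1 (hR i' hi').1 ((aV g).injective h)
  · intro i i' hi hi' h1 h2
    exact EE_aV g _ _ (old_E i i' (hR i hi).1 (hR i' hi').1 h1 h2)
  · intro i hi
    refine ⟨?_, hRN i hi⟩
    rintro (h | h)
    · exact (hR i hi).2 (psi_inj i 11 (hR i hi).1 (by norm_num)
        ((aV g).injective (h.trans hg11.symm)))
    · exact h
  · intro i hi hk
    have hk' : ¬ tyc i < 2 := by
      rcases hk with hk | hk
      · intro h
        have key : ∀ k < 2, (4 : ℕ).testBit k = false := by decide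
        rw [key _ h] at hk
        exact Bool.noConfusion hk
      · exact hk
    refine ⟨_, hz0, Or.inr ⟨z0, ?_⟩⟩
    rcases new_psi i (hR i hi).1 hk' with h | h
    · exact ⟨g * 1, rfl, by rw [h, aV_inr]⟩
    · exact ⟨g * hz, rfl, by rw [h, aV_inr]⟩
  · intro _
    refine ⟨Sum.inr y, Sum.inr z0, ?_, hyN, ?_, hz0, Or.inr ⟨z0, y, rfl, rfl⟩⟩
    · rintro (h | h)
      · exact hyg (Sum.inr_injective h)
      · exact h
    · intro i hi h
      have hil := (hR i hi).1
      have c : i < 11 ∨ i = 11 ∨ i = 12 := by omega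
      rcases c with h1 | rfl | rfl
      · have h' : aV g (psi i) = Sum.inr y := h
        rw [psi_lt i h1, aV_inl] at h'
        cases h'
      · exact (hR 11 hi).2 rfl
      · have h' : aV g (psi 12) = Sum.inr y := h
        rw [psi12, aV_inr] at h'
        exact hyh (Sum.inr_injective h').symm
  · have hwX : (Sum.inr g : VV) ∈ X := hTX (Or.inl rfl)
    constructor
    · intro hSX
      obtain ⟨m', hm', hum, h⟩ := key X hwX hSX
      refine ⟨?_, m', List.mem_filter.2 ⟨hm', hum⟩, ?_⟩
      · rintro x ⟨hx, hxI⟩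
        obtain ⟨i, hi, hxe⟩ := h x hx
        by_cases hi11 : i = 11
        · show x = _
          rw [hxe, hi11, hg11]
        · refine absurd ⟨i, ?_, hxe.symm⟩ hxI
          exact hcomp X hXN i (bit_lt m' hm' i hi) hi11 (hxe ▸ hx)
      · intro i hi hiX
        obtain ⟨i2, hi2, hxe⟩ := h _ hiX
        have : i = i2 := psi_inj _ _ (hR i hi).1 (bit_lt m' hm' i2 hi2) ((aV g).injective hxe)
        rw [this]
        exact hi2
    · rintro ⟨hP, m, hm, h⟩
      obtain ⟨hm1, hm2⟩ := List.mem_filter.1 hm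
      refine ⟨g, m, hm1, fun x hx => ?_⟩
      by_cases hxI : x ∈ Im (fun i => aV g (psi i)) R
      · obtain ⟨i, hi, rfl⟩ := hxI
        exact ⟨i, h i hi hx, rfl⟩
      · have : x = Sum.inr g := hP ⟨hx, hxI⟩
        rw [this]
        exact ⟨11, hm2, hg11.symm⟩

theorem R2_bit (i : ℕ) : (2 ^ 11 - 1 : ℕ).testBit i = true ↔ i < 11 := by
  rw [Nat.testBit_two_pow_sub_one, decide_eq_true_eq]

theorem R1_lt : ∀ i < 13, ((2 ^ 11 - 1 + 2 ^ 12 : ℕ).testBit i = true ↔ i ≠ 11) := by
  decide +kernel

theorem R1_bit (i : ℕ) : (2 ^ 11 - 1 + 2 ^ 12 : ℕ).testBit i = true ↔ i < 13 ∧ i ≠ 11 := by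
  by_cases h : i < 13
  · rw [R1_lt i h]
    exact ⟨fun h' => ⟨h, h'⟩, fun h' => h'.2⟩
  · have h2 : (2 ^ 11 - 1 + 2 ^ 12 : ℕ) < 2 ^ i :=
      lt_of_lt_of_le (by norm_num) (Nat.pow_le_pow_right (by norm_num) (show 13 ≤ i by omega))
    rw [Nat.testBit_lt_two_pow h2]
    exact ⟨fun h' => Bool.noConfusion h', fun h' => absurd h'.1 h⟩

/-- The new vertices outside the chart. -/
def Out : Set VV := {v | ∃ k : A5s, v = Sum.inr k ∧ k ≠ 1 ∧ k ≠ hz}

/-- The branch, in both cases. -/
theorem br2 (g : A5s) (N : Set VV) (hgN : (Sum.inr g : VV) ∉ N) (hNO : N ⊆ Out)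
    (z0 : A5s) (hz0 : (Sum.inr z0 : VV) ∈ N) (hg1 : g ≠ 1) (hgh : g ≠ hz) :
    W1E EE (Sorb aV psi MM) (insert (Sum.inr g) ∅) N := by
  have hy1 : (Sum.inr 1 : VV) ∉ N := by
    intro h
    obtain ⟨k, hk, h1, -⟩ := hNO h
    exact h1 (Sum.inr_injective hk).symm
  have hinl : ∀ x : Fin 11, (Sum.inl x : VV) ∉ N := by
    intro x h
    obtain ⟨k, hk, -, -⟩ := hNO h
    cases hk
  have hgz : (1 : A5s) ≠ g * hz := by
    intro h
    apply hgh
    have h2 : g = hz⁻¹ := eq_inv_of_mul_eq_one_left h.symm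
    rw [h2]
    exact inv_eq_of_mul_eq_one_right hzz
  by_cases hp : (Sum.inr (g * hz) : VV) ∈ N
  · refine br (2 ^ 11 - 1) ?_ sL2 ck_2 g N ?_ ?_ z0 hz0 1 (fun h => hg1 h.symm) hy1 hgz
    · intro i hi
      have := (R2_bit i).1 hi
      exact ⟨by omega, by omega⟩
    · intro i hi
      have h1 := (R2_bit i).1 hi
      rw [psi_lt i h1, aV_inl]
      exact hinl _
    · intro X hXN i hi hi11 hx
      rw [R2_bit]
      by_contra h
      have e : i = 12 := by omega
      rw [e, psi12, aV_inr] at hx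
      exact Set.disjoint_left.1 hXN hx hp
  · refine br (2 ^ 11 - 1 + 2 ^ 12) ?_ sL1 ck_1 g N ?_ ?_ z0 hz0 1 (fun h => hg1 h.symm) hy1 hgz
    · intro i hi
      exact (R1_bit i).1 hi
    · intro i hi
      obtain ⟨h1, h2⟩ := (R1_bit i).1 hi
      by_cases h3 : i < 11
      · rw [psi_lt i h3, aV_inl]
        exact hinl _
      · have e : i = 12 := by omega
        rw [e, psi12, aV_inr]
        exact hp
    · intro X hXN i hi hi11 hx
      exact (R1_bit i).2 ⟨hi, hi11⟩

theorem w1b : W1E EE (Sorb aV psi MM) {Sum.inr k0} {Sum.inr k1} := by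
  obtain ⟨h1, h2, h3, h4, h5, h6⟩ := k0_ne
  have h := br2 k0 {Sum.inr k1} (fun h => h5 (Sum.inr_injective h).symm) ?_ k1 rfl h1 h2
  · have hset : (insert (Sum.inr k0) ∅ : Set VV) = {Sum.inr k0} := by
      ext v; simp
    rw [hset] at h
    exact h
  · rintro v hv
    exact ⟨k1, hv, h3, h4⟩

theorem w1a : W1E EE (Sorb aV psi MM) ∅ {Sum.inr k0} := by
  obtain ⟨h1, h2, h3, h4, h5, h6⟩ := k0_ne
  have hfin : W1E EE (Sorb aV psi MM) ∅ Out := by
    refine check1_sound EE _ psi tyc false (fun k => k < 2) sFin MM (2 ^ 13 - 1) 4 ck_fin ?_ ?_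
      _ _ ?_ ?_ ?_ ⟨fun _ => True, fun X _ hXN => ?_⟩
    · intro i j hi hj h
      rw [Nat.testBit_two_pow_sub_one, decide_eq_true_eq] at hi hj
      exact psi_inj i j hi hj h
    · intro i j hi hj h1 h2
      rw [Nat.testBit_two_pow_sub_one, decide_eq_true_eq] at hi hj
      exact old_E i j hi hj h1 h2
    · intro i hi
      rw [Nat.testBit_two_pow_sub_one, decide_eq_true_eq] at hi
      refine ⟨Set.notMem_empty _, ?_⟩
      rintro ⟨k, hk, hk1, hk2⟩
      have c : i < 11 ∨ i = 11 ∨ i = 12 := by omega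
      rcases c with h1 | rfl | rfl
      · rw [psi_lt i h1] at hk; cases hk
      · rw [psi11] at hk; exact hk1 (Sum.inr_injective hk).symm
      · rw [psi12] at hk; exact hk2 (Sum.inr_injective hk).symm
    · intro i hi hk
      rw [Nat.testBit_two_pow_sub_one, decide_eq_true_eq] at hi
      have hk' : ¬ tyc i < 2 := by
        rcases hk with hk | hk
        · intro h
          have key : ∀ k < 2, (4 : ℕ).testBit k = false := by decide
          rw [key _ h] at hk
          exact Bool.noConfusion hk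
        · exact hk
      refine ⟨Sum.inr k0, ⟨k0, rfl, h1, h2⟩, Or.inr ⟨k0, ?_⟩⟩
      rcases new_psi i hi hk' with h | h
      · exact ⟨1, rfl, h⟩
      · exact ⟨hz, rfl, h⟩
    · intro h
      exact Bool.noConfusion h
    · rw [true_and]
      constructor
      · rintro ⟨g, m, hm, h⟩
        by_cases hl : ∃ k, (Sum.inr k : VV) ∈ X
        · obtain ⟨k, hk⟩ := hl
          have hkc : k = 1 ∨ k = hz := by
            by_contra hne
            push Not at hne
            exact Set.disjoint_left.1 hXN hk ⟨k, rfl, hne.1, hne.2⟩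
          obtain ⟨i0, hi0, he0⟩ := h _ hk
          have hi0l := bit_lt m hm i0 hi0
          have hi011 : ¬ i0 < 11 := by
            intro h1
            rw [psi_lt i0 h1, aV_inl] at he0
            cases he0
          have hgd : Gd g := by
            have c : i0 = 11 ∨ i0 = 12 := by omega
            have hinv : hz⁻¹ = hz := inv_eq_of_mul_eq_one_right hzz
            rcases c with rfl | rfl
            · rw [psi11, aV_inr, mul_one] at he0
              rw [← Sum.inr_injective he0]
              rcases hkc with rfl | rfl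
              · exact gd_one
              · exact gd_hz
            · rw [psi12, aV_inr] at he0
              have e : g = k * hz := by
                rw [Sum.inr_injective he0, mul_assoc, hzz, mul_one]
              rw [e]
              rcases hkc with rfl | rfl
              · rw [one_mul]; exact gd_hz
              · rw [hzz]; exact gd_one
          obtain ⟨m', hm', h'⟩ := hgd m hm
          refine ⟨m', hm', fun i hi hiX => ?_⟩
          rw [Nat.testBit_two_pow_sub_one, decide_eq_true_eq] at hi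
          obtain ⟨i2, hi2, hie⟩ := h _ hiX
          obtain ⟨i3, hi3, hie3⟩ := h' i2 hi2
          rw [psi_inj i i3 hi (bit_lt m' hm' i3 hi3) (hie.trans hie3)]
          exact hi3
        · obtain ⟨m', hm', h'⟩ := inv_all g m hm
          refine ⟨m', hm', fun i hi hiX => ?_⟩
          rw [Nat.testBit_two_pow_sub_one, decide_eq_true_eq] at hi
          have hi11 : i < 11 := by
            by_contra h11
            have c : i = 11 ∨ i = 12 := by omega
            rcases c with rfl | rfl
            · rw [psi11] at hiX; exact hl ⟨_, hiX⟩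
            · rw [psi12] at hiX; exact hl ⟨_, hiX⟩
          obtain ⟨i2, hi2, hie⟩ := h _ hiX
          have hi2l := bit_lt m hm i2 hi2
          have hi211 : i2 < 11 := by
            by_contra h11
            have c : i2 = 11 ∨ i2 = 12 := by omega
            rcases c with rfl | rfl
            · rw [psi_lt i hi11, psi11, aV_inr] at hie; cases hie
            · rw [psi_lt i hi11, psi12, aV_inr] at hie; cases hie
          rw [psi_lt i hi11, psi_lt i2 hi211, aV_inl] at hie
          have h5 := h' ⟨i2, hi211⟩ hi2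
          rw [← Sum.inl_injective hie] at h5
          exact h5
      · rintro ⟨m, hm, h⟩
        refine ⟨1, m, hm, fun v hv => ?_⟩
        rcases v with x | k
        · refine ⟨x.val, ?_, ?_⟩
          · apply h x.val
            · rw [Nat.testBit_two_pow_sub_one, decide_eq_true_eq]; omega
            · rw [psi_lt x.val x.isLt]; exact hv
          · rw [psi_lt x.val x.isLt, map_one]; rfl
        · have hkc : k = 1 ∨ k = hz := by
            by_contra hne
            push Not at hne
            exact Set.disjoint_left.1 hXN hv ⟨k, rfl, hne.1, hne.2⟩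
          rcases hkc with rfl | rfl
          · refine ⟨11, ?_, ?_⟩
            · apply h 11
              · decide
              · rw [psi11]; exact hv
            · rw [psi11, map_one]; rfl
          · refine ⟨12, ?_, ?_⟩
            · apply h 12
              · decide
              · rw [psi12]; exact hv
            · rw [psi12, map_one]; rfl
  refine w1e_search EE (Sorb aV psi MM) Out ∅ _ _ rfl ?_ ?_
  · rintro w ⟨g, rfl, hg1, hg2⟩ _ _ N' hN1 hN2 hwN'
    refine br2 g N' hwN' ?_ k0 (hN1 rfl) hg1 hg2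
    intro v hv
    rcases hN2 hv with h | h
    · exact ⟨k0, h, h1, h2⟩
    · exact h.1
  · have hset : ({Sum.inr k0} ∪ (Out \ ∅) : Set VV) = Out := by
      ext v
      constructor
      · rintro (h | h)
        · exact ⟨k0, h, h1, h2⟩
        · exact h.1
      · intro h
        exact Or.inr ⟨h, fun h => h⟩
    rw [hset]
    exact hfin

theorem pair_not : ¬ Sorb aV psi MM {Sum.inr k0, Sum.inr k1} := by
  rintro ⟨g, m, hm, h⟩
  obtain ⟨-, -, -, -, h5, h6⟩ := k0_ne
  obtain ⟨i, hi, he⟩ := h (Sum.inr k0) (Or.inl rfl)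
  obtain ⟨i', hi', he'⟩ := h (Sum.inr k1) (Or.inr rfl)
  have c : ∀ i, m.testBit i = true → ∀ k : A5s, (Sum.inr k : VV) = aV g (psi i) →
      k = g ∨ k = g * hz := by
    intro i hi k hk
    have hil := bit_lt m hm i hi
    have c : i < 11 ∨ i = 11 ∨ i = 12 := by omega
    rcases c with h1 | rfl | rfl
    · rw [psi_lt i h1, aV_inl] at hk; cases hk
    · left
      rw [psi11, aV_inr, mul_one] at hk
      exact Sum.inr_injective hk
    · right
      rw [psi12, aV_inr] at hk
      exact Sum.inr_injective hk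
  rcases c i hi k0 he with h1 | h1 <;> rcases c i' hi' k1 he' with h2 | h2
  · exact h5 (h2.trans h1.symm)
  · exact h6 (by rw [h1]; exact h2)
  · apply h6
    rw [h1, mul_assoc, hzz, mul_one]
    exact h2
  · exact h5 (h2.trans h1.symm)

end Pool.Agent.H393.EW
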