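import Pool.Agent.H393.EW.Asm3
import Pool.Agent.H393.EX.Wr

/-! The tied words of the complex: a nonevasive function of `7200` variables with a transitive
group which acts faithfully on `12` points.  (helper393) -/

set_option autoImplicit false

namespace Pool.Agent.H393.EW

open Pool.Agent.H684.EV (Datum)
open Pool.Agent.H393.EV
open Pool.Agent.H393.EX (A5s rho1 rho1_inj card_A5s Gm mv cb mv_one mv_mul Tw tact tw_datum)

/-- The group of the shifts. -/
abbrev C2 : Type := Multiplicative (ZMod 2)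

/-- The trivial group. -/
abbrev C1 : Type := Equiv.Perm (Fin 1)

/-- The trivial action. -/
def a2 : C1 →* Equiv.Perm VV := 1

theorem hcomm (g : A5s) (h : C1) : aV g * a2 h = a2 h * aV g := by
  show aV g * 1 = 1 * aV g
  rw [one_mul, mul_one]

/-- The nontrivial shift. -/
abbrev s1 : C2 := Multiplicative.ofAdd 1

theorem c2_cases : ∀ q : C2, q = 1 ∨ q = s1 := by decide

theorem ne1 : s1 ≠ 1 := by decide

/-- The word. -/
noncomputable def w0 (c : C2 × C2) : Option VV :=
  if c.1 = 1 then (if c.2 = 1 then some (Sum.inl 0) else some (Sum.inl 7))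
  else (if c.2 = 1 then some (Sum.inr 1) else none)

theorem w00 : w0 (1, 1) = some (Sum.inl 0) := by
  unfold w0; rw [if_pos rfl, if_pos rfl]

theorem w01 : w0 (1, s1) = some (Sum.inl 7) := by
  unfold w0; rw [if_pos rfl, if_neg ne1]

theorem w10 : w0 (s1, 1) = some (Sum.inr 1) := by
  unfold w0; rw [if_neg ne1, if_pos rfl]

theorem w11 : w0 (s1, s1) = none := by
  unfold w0; rw [if_neg ne1, if_neg ne1]

/-- An element of the group without shift. -/
def mk (f : C2 → A5s) : Gm A5s C1 C2 C2 := (⟨f, 1⟩, 1)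

theorem mv_mk (f : C2 → A5s) (w : C2 × C2 → Option VV) (c : C2 × C2) :
    mv aV a2 (mk f) w c = (w c).map fun x => aV (f c.1) x := by
  unfold mv cb Pool.Agent.H393.EX.lp mk
  show (w ((1 : C2)⁻¹ * c.1, (1 : C2)⁻¹ * c.2)).map _ = _
  rw [inv_one, one_mul, one_mul]
  rfl

theorem mv_mk' (f : C2 → A5s) (w : C2 × C2 → Option VV) (p : C2) (q : C2)
    (u v : VV) (hu : w (p, q) = some u) (hv : aV (f p) u = v) :
    mv aV a2 (mk f) w (p, q) = some v := by
  rw [mv_mk, hu, Option.map_some]
  exact congrArg some hv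

/-- An element of the group which moves the coordinate `c` to the first one. -/
def mc (c : C2 × C2) (g : A5s) : Gm A5s C1 C2 C2 :=
  (⟨fun _ => g, c.1⁻¹⟩, ⟨1, c.2⁻¹⟩)

theorem mv_mc (c : C2 × C2) (g : A5s) (w : C2 × C2 → Option VV) :
    mv aV a2 (mc c g) w 1 = (w c).map fun x => aV g x := by
  unfold mv cb Pool.Agent.H393.EX.lp mc
  show (w ((c.1⁻¹)⁻¹ * 1, (c.2⁻¹)⁻¹ * 1)).map _ = _
  rw [inv_inv, inv_inv, mul_one, mul_one]
  rfl

theorem mv_mc' (c : C2 × C2) (g : A5s) (u v : VV) (hu : w0 c = some u) (hv : aV g u = v) :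
    ∃ γ : Gm A5s C1 C2 C2, mv aV a2 γ w0 1 = some v := by
  refine ⟨mc c g, ?_⟩
  rw [mv_mc, hu, Option.map_some, ← hv]

theorem fin2 : ∀ i : Fin 2, i = 0 ∨ i = 1 := by decide

theorem hocc (v : VV) : ∃ γ : Gm A5s C1 C2 C2, mv aV a2 γ w0 1 = some v := by
  rcases v with x | k
  · rcases fin2 (bk x) with h | h
    · obtain ⟨g, h1, -⟩ := X1 x h
      exact mv_mc' (1, 1) g _ _ w00 (by rw [aV_inl, h1])
    · obtain ⟨g, -, h1⟩ := X2 x h
      exact mv_mc' (1, s1) g _ _ w01 (by rw [aV_inl, h1])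
  · exact mv_mc' (s1, 1) k _ _ w10 (by rw [aV_inr, mul_one])

theorem aV1 (x : VV) : aV 1 x = x := by
  rw [map_one]
  rfl

/-- A function with one given value. -/
def at1 (q : C2) (x : A5s) (p : C2) : A5s := if p = q then x else 1

theorem at1_eq (q : C2) (x : A5s) : at1 q x q = x := if_pos rfl

theorem at1_ne (q p : C2) (x : A5s) (h : p ≠ q) : at1 q x p = 1 := if_neg h

/-- Fixed letters. -/
theorem fixd (f : C2 → A5s) (p q : C2)
    (hfix : ∀ u, w0 (p, q) = some u → aV (f p) u = u) :
    mv aV a2 (mk f) w0 (p, q) = w0 (p, q) := by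
  cases e : w0 (p, q) with
  | none => rw [mv_mk, e]; rfl
  | some u => exact mv_mk' f w0 p q u u e (hfix u e)

theorem hex0 (c : C2 × C2) (u v : VV) (hc : w0 c = some u) (huv : EE u v) :
    ∃ γ : Gm A5s C1 C2 C2, mv aV a2 γ w0 c = some v ∧ ∀ d, d ≠ c → mv aV a2 γ w0 d = w0 d := by
  obtain ⟨c1, c2⟩ := c
  rcases c2_cases c1 with rfl | rfl <;> rcases c2_cases c2 with rfl | rfl
  · -- a point
    rw [w00] at hc
    obtain rfl := Option.some_injective _ hc
    rcases huv with ⟨x, y, hx, rfl, hxy⟩ | ⟨g, k, hs, -⟩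
    · obtain rfl := Sum.inl_injective hx
      obtain ⟨g, h1, h2⟩ := X1 y hxy.symm
      refine ⟨mk (at1 1 g), ?_, ?_⟩
      · refine mv_mk' _ _ _ _ _ _ w00 ?_
        rw [at1_eq, aV_inl, h1]
      · rintro ⟨d1, d2⟩ hd
        refine fixd _ _ _ (fun u hu => ?_)
        rcases c2_cases d1 with rfl | rfl
        · rw [at1_eq]
          rcases c2_cases d2 with rfl | rfl
          · exact absurd rfl hd
          · rw [w01] at hu
            obtain rfl := Option.some_injective _ hu
            rw [aV_inl, h2]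
        · rw [at1_ne _ _ _ ne1, aV1]
    · cases hs
  · -- a centre
    rw [w01] at hc
    obtain rfl := Option.some_injective _ hc
    rcases huv with ⟨x, y, hx, rfl, hxy⟩ | ⟨g, k, hs, -⟩
    · obtain rfl := Sum.inl_injective hx
      obtain ⟨g, h1, h2⟩ := X2 y hxy.symm
      refine ⟨mk (at1 1 g), ?_, ?_⟩
      · refine mv_mk' _ _ _ _ _ _ w01 ?_
        rw [at1_eq, aV_inl, h2]
      · rintro ⟨d1, d2⟩ hd
        refine fixd _ _ _ (fun u hu => ?_)
        rcases c2_cases d1 with rfl | rfl
        · rw [at1_eq]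
          rcases c2_cases d2 with rfl | rfl
          · rw [w00] at hu
            obtain rfl := Option.some_injective _ hu
            rw [aV_inl, h1]
          · exact absurd rfl hd
        · rw [at1_ne _ _ _ ne1, aV1]
    · cases hs
  · -- a new vertex
    rw [w10] at hc
    obtain rfl := Option.some_injective _ hc
    rcases huv with ⟨x, y, hx, -, -⟩ | ⟨g, k, hs, rfl⟩
    · cases hx
    · refine ⟨mk (at1 s1 k), ?_, ?_⟩
      · refine mv_mk' _ _ _ _ _ _ w10 ?_
        rw [at1_eq, aV_inr, mul_one]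
      · rintro ⟨d1, d2⟩ hd
        refine fixd _ _ _ (fun u hu => ?_)
        rcases c2_cases d1 with rfl | rfl
        · rw [at1_ne _ _ _ ne1.symm, aV1]
        · rcases c2_cases d2 with rfl | rfl
          · exact absurd rfl hd
          · rw [w11] at hu
            cases hu
  · rw [w11] at hc
    cases hc

theorem hz0 : ∃ γ : Gm A5s C1 C2 C2, ∀ c, mv aV a2 γ w0 c ≠ some (Sum.inr k0) ∧
    mv aV a2 γ w0 c ≠ some (Sum.inr k1) := by
  obtain ⟨h1, -, h3, -, -, -⟩ := k0_ne
  refine ⟨1, fun c => ?_⟩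
  rw [mv_one]
  obtain ⟨c1, c2⟩ := c
  rcases c2_cases c1 with rfl | rfl <;> rcases c2_cases c2 with rfl | rfl
  · rw [w00]; exact ⟨fun h => (by cases h), fun h => (by cases h)⟩
  · rw [w01]; exact ⟨fun h => (by cases h), fun h => (by cases h)⟩
  · rw [w10]
    exact ⟨fun h => h1 (Sum.inr_injective (Option.some_injective _ h)).symm,
      fun h => h3 (Sum.inr_injective (Option.some_injective _ h)).symm⟩
  · rw [w11]; exact ⟨fun h => (by cases h), fun h => (by cases h)⟩

/-- Some elements of the stabiliser. -/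
def stb (b : Bool) : Gm A5s C1 C2 C2 := mk (at1 1 (if b = true then tz else 1))

theorem stb_inj : Function.Injective stb := by
  intro i i' h
  have h1 : (stb i).1.left 1 = (stb i').1.left 1 := by rw [h]
  have h0 : ∀ i : Bool, (stb i).1.left 1 = if i = true then tz else 1 := fun i => at1_eq 1 _
  rw [h0, h0] at h1
  cases i <;> cases i'
  · rfl
  · rw [if_neg (by decide), if_pos rfl] at h1; exact absurd h1.symm tz_ne
  · rw [if_pos rfl, if_neg (by decide)] at h1; exact absurd h1 tz_ne
  · rfl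

theorem stb_fix (b : Bool) : mv aV a2 (stb b) w0 = w0 := by
  have hA : ∀ (i : Bool) (x : VV), aV tz x = x → aV (if i = true then tz else 1) x = x := by
    intro i x hx
    cases i
    · rw [if_neg (by decide)]; exact aV1 x
    · rw [if_pos rfl]; exact hx
  funext ⟨d1, d2⟩
  refine fixd _ _ _ (fun u hu => ?_)
  rcases c2_cases d1 with rfl | rfl
  · rw [at1_eq]
    apply hA
    rcases c2_cases d2 with rfl | rfl
    · rw [w00] at hu
      obtain rfl := Option.some_injective _ hu
      rw [aV_inl, tz_fix.1]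
    · rw [w01] at hu
      obtain rfl := Option.some_injective _ hu
      rw [aV_inl, tz_fix.2]
  · rw [at1_ne _ _ _ ne1, aV1]

theorem card_gm : Nat.card (Gm A5s C1 C2 C2) ≤ 14400 := by
  rw [Nat.card_prod, RegularWreathProduct.card, RegularWreathProduct.card]
  have e2 : Nat.card C2 = 2 := by
    rw [Nat.card_eq_fintype_card]; rfl
  have e1 : Nat.card C1 = 1 := by
    rw [Nat.card_perm, Nat.card_fin]; rfl
  rw [e2, e1]
  have h := Nat.pow_le_pow_left card_A5s 2
  omega

theorem card_tw : Nat.card (Tw aV a2 w0) ≤ 7200 := by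
  let _ := tact aV a2 w0 hcomm
  let x0 : Tw aV a2 w0 := ⟨w0, 1, mv_one aV a2 w0⟩
  have _ : MulAction.IsPretransitive (Gm A5s C1 C2 C2) (Tw aV a2 w0) := ⟨by
    rintro ⟨v, γ, rfl⟩ ⟨w, δ, rfl⟩
    refine ⟨δ * γ⁻¹, Subtype.ext ?_⟩
    show mv aV a2 (δ * γ⁻¹) (mv aV a2 γ w0) = mv aV a2 δ w0
    rw [← mv_mul aV a2 hcomm, inv_mul_cancel_right]⟩
  have h1 := MulAction.index_stabilizer_of_transitive (Gm A5s C1 C2 C2) x0
  have h2 := Subgroup.index_mul_card (MulAction.stabilizer (Gm A5s C1 C2 C2) x0)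
  have h3 : 2 ≤ Nat.card (MulAction.stabilizer (Gm A5s C1 C2 C2) x0) := by
    let f : Bool → MulAction.stabilizer (Gm A5s C1 C2 C2) x0 := fun b =>
      ⟨stb b, Subtype.ext (stb_fix b)⟩
    have hf : Function.Injective f := by
      intro b b' hb
      exact stb_inj (congrArg Subtype.val hb)
    have h := Nat.card_le_card_of_injective f hf
    rw [Nat.card_eq_fintype_card, Fintype.card_bool] at h
    exact h
  have h4 := card_gm
  rw [h1] at h2
  nlinarith

theorem MM_ne : MM ≠ [] := by decide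

/-- A monotone function of `7200` variables with a transitive group which acts faithfully on
`12` points, not evasive. -/
theorem datum3 : Datum 12 (7200 - 1) 7200 := by
  have h := tw_datum aV a2 w0 hcomm (Sorb aV psi MM) EE
    (fun g A => sorb_smul aV psi MM g A) (fun g A => by
      show Sorb aV psi MM ((1 : Equiv.Perm VV) '' A) ↔ _
      rw [Equiv.Perm.coe_one, Set.image_id])
    EE_aV (fun g u v h => h) (sorb_down aV psi MM)
    (sorb_empty aV psi MM MM_ne) hocc hex0 (Sum.inr k0) (Sum.inr k1) hz0 pair_not w1a w1b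
    (Λ1 := Fin 5) (Λ2 := Fin 1) rho1 rho1_inj (MonoidHom.id C1) Function.injective_id 7200 card_tw
  have e : Fintype.card (Fin 5) * Fintype.card C2 + Fintype.card (Fin 1) * Fintype.card C2 = 12 := by
    rfl
  rw [e] at h
  exact h

end Pool.Agent.H393.EW
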