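import Pool.Agent.H684.EV.Datum
import Pool.Agent.H393.EX.Red1

/-! Words with a group which moves the coordinates and acts on the letters by a cocycle: the
datum of the transitive function.  (helper393; tied words: idea of helper73) -/

set_option autoImplicit false

namespace Pool.Agent.H393.EW

open Pool.Agent.H684.EV (Datum)
open Pool.Agent.H571R3 (Win win_tree)
open Pool.Agent.H128R2.Evas (DT)
open Pool.Agent.H393.EX (ms FF ms_anti reduceE W1E)

/-- An action on words: the coordinates are moved and the letters are changed. -/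
structure Coc (P C V : Type) [Group P] where
  cb : P → C → C
  lp : P → C → Equiv.Perm V
  cb_one : ∀ c, cb 1 c = c
  cb_mul : ∀ γ δ c, cb (γ * δ) c = cb δ (cb γ c)
  lp_one : ∀ c, lp 1 c = 1
  lp_mul : ∀ γ δ c, lp (γ * δ) c = lp γ c * lp δ (cb γ c)

section words

variable {P C V : Type} [Group P] (K : Coc P C V)

/-- The moved word. -/
def mw (γ : P) (w : C → Option V) (c : C) : Option V := (w (K.cb γ c)).map (K.lp γ c)

theorem mw_one (w : C → Option V) : mw K (1 : P) w = w := by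
  funext c
  unfold mw
  rw [K.cb_one, K.lp_one]
  cases w c <;> rfl

theorem mw_mul (γ δ : P) (w : C → Option V) : mw K (γ * δ) w = mw K γ (mw K δ w) := by
  funext c
  show (w (K.cb (γ * δ) c)).map (K.lp (γ * δ) c) =
    ((w (K.cb δ (K.cb γ c))).map (K.lp δ (K.cb γ c))).map (K.lp γ c)
  rw [K.cb_mul, K.lp_mul, Option.map_map]
  rfl

variable (w0 : C → Option V)

/-- The words. -/
def Ww : Type := {w : C → Option V // ∃ γ : P, mw K γ w0 = w}

/-- The letters. -/
def pi4 (w : Ww K w0) (c : C) : Option V := w.1 c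

/-- The action on the words. -/
@[reducible] def wact4 : MulAction P (Ww K w0) where
  smul γ w := ⟨mw K γ w.1, by
    obtain ⟨δ, hδ⟩ := w.2
    exact ⟨γ * δ, by rw [mw_mul K, hδ]⟩⟩
  one_smul w := Subtype.ext (mw_one K w.1)
  mul_smul γ δ w := Subtype.ext (mw_mul K γ δ w.1)

/-- The homomorphism to the permutations of the words. -/
def wth : P →* Equiv.Perm (Ww K w0) := @MulAction.toPermHom P (Ww K w0) _ (wact4 K w0)

theorem wth_val (γ : P) (w : Ww K w0) : (wth K w0 γ w).1 = mw K γ w.1 := rfl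

theorem ms_wth (γ : P) (X : Set (Ww K w0)) (c : C) :
    ms (pi4 K w0) (wth K w0 γ '' X) c = K.lp γ c '' ms (pi4 K w0) X (K.cb γ c) := by
  ext v
  constructor
  · intro hb
    refine ⟨(K.lp γ c).symm v, ?_, Equiv.apply_symm_apply _ _⟩
    intro w hw he
    refine hb _ ⟨w, hw, rfl⟩ ?_
    show mw K γ w.1 c = some v
    unfold mw
    have he' : w.1 (K.cb γ c) = some ((K.lp γ c).symm v) := he
    rw [he', Option.map_some, Equiv.apply_symm_apply]
  · rintro ⟨u, hb, rfl⟩
    rintro _ ⟨w, hw, rfl⟩ he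
    refine hb w hw ?_
    have he' : (w.1 (K.cb γ c)).map (K.lp γ c) = some (K.lp γ c u) := he
    show w.1 (K.cb γ c) = some u
    cases h : w.1 (K.cb γ c) with
    | none => rw [h] at he'; cases he'
    | some x =>
      rw [h, Option.map_some] at he'
      rw [(K.lp γ c).injective (Option.some_injective _ he')]

theorem cb_surj4 (γ : P) (c : C) : ∃ d, K.cb γ d = c :=
  ⟨K.cb γ⁻¹ c, by rw [← K.cb_mul, inv_mul_cancel, K.cb_one]⟩

theorem cb_inj4 (γ : P) (c d : C) (h : K.cb γ c = K.cb γ d) : c = d := by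
  have h2 := congrArg (K.cb γ⁻¹) h
  rwa [← K.cb_mul, ← K.cb_mul, mul_inv_cancel, K.cb_one, K.cb_one] at h2

theorem lp_symm (γ : P) (c : C) (x : V) :
    (K.lp γ c).symm x = K.lp γ⁻¹ (K.cb γ c) x := by
  rw [Equiv.symm_apply_eq]
  have h := K.lp_mul γ γ⁻¹ c
  rw [mul_inv_cancel, K.lp_one] at h
  have h2 := congrArg (fun e : Equiv.Perm V => e x) h
  exact h2

theorem ff_wth (S : Set V → Prop) (haS : ∀ γ c A, S (K.lp γ c '' A) ↔ S A) (γ : P)
    (X : Set (Ww K w0)) :
    FF (pi4 K w0) S (wth K w0 γ '' X) ↔ FF (pi4 K w0) S X := by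
  constructor
  · rintro ⟨c, hc⟩
    rw [ms_wth, haS] at hc
    exact ⟨_, hc⟩
  · rintro ⟨c, hc⟩
    obtain ⟨d, hd⟩ := cb_surj4 K γ c
    refine ⟨d, ?_⟩
    rw [ms_wth, haS, hd]
    exact hc

/-- The datum. -/
theorem ww_datum [Finite V] [Finite P] [Finite C] (S : Set V → Prop) (E : V → V → Prop)
    (haS : ∀ γ c A, S (K.lp γ c '' A) ↔ S A)
    (hEa : ∀ γ c u v, E u v → E (K.lp γ c u) (K.lp γ c v))
    (hdown : ∀ A B : Set V, A ⊆ B → S B → S A) (hempty : S ∅) (c0 : C)
    (hocc : ∀ v : V, ∃ γ : P, mw K γ w0 c0 = some v)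
    (hex0 : ∀ (c : C) (u v : V), w0 c = some u → E u v →
      ∃ γ : P, mw K γ w0 c = some v ∧ ∀ d, d ≠ c → mw K γ w0 d = w0 d)
    (a b : V) (hz0 : ∃ γ : P, ∀ c, mw K γ w0 c ≠ some a ∧ mw K γ w0 c ≠ some b)
    (hS : ¬ S {a, b}) (hw1 : W1E E S ∅ {a}) (hw2 : W1E E S {a} {b})
    {Λ : Type} [Fintype Λ] (ρ : P →* Equiv.Perm Λ) (hρ : Function.Injective ρ)
    (q : ℕ) (hq : Nat.card (Ww K w0) ≤ q) : Datum (Fintype.card Λ) (q - 1) q := by
  classical
  have hfin : Finite (Ww K w0) := by unfold Ww; infer_instance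
  have hfin2 : Fintype (Ww K w0) := Fintype.ofFinite _
  have hex : ∀ (w : Ww K w0) (c : C) (u v : V), pi4 K w0 w c = some u → E u v →
      ∃ z, pi4 K w0 z c = some v ∧ ∀ d, d ≠ c → pi4 K w0 z d = pi4 K w0 w d := by
    rintro ⟨w, γ, rfl⟩ c u v hu huv
    have hu' : (w0 (K.cb γ c)).map (K.lp γ c) = some u := hu
    cases h : w0 (K.cb γ c) with
    | none => rw [h] at hu'; cases hu'
    | some u0 =>
      rw [h, Option.map_some] at hu'
      have hu0 : u0 = (K.lp γ c).symm u := by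
        rw [← Option.some_injective _ hu', Equiv.symm_apply_apply]
      have hE0 : E u0 ((K.lp γ c).symm v) := by
        rw [hu0, lp_symm, lp_symm]
        exact hEa _ _ _ _ huv
      obtain ⟨γ0, h1, h2⟩ := hex0 _ _ _ h hE0
      refine ⟨⟨mw K γ (mw K γ0 w0), γ * γ0, mw_mul K _ _ _⟩, ?_, ?_⟩
      · show (mw K γ0 w0 (K.cb γ c)).map (K.lp γ c) = some v
        rw [h1, Option.map_some, Equiv.apply_symm_apply]
      · intro d hd
        show (mw K γ0 w0 (K.cb γ d)).map (K.lp γ d) = (w0 (K.cb γ d)).map (K.lp γ d)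
        rw [h2 _ (fun h => hd (cb_inj4 K γ d c h))]
  have hnu : ¬ S Set.univ := fun h => hS (hdown _ _ (Set.subset_univ _) h)
  have hred : Win (FF (pi4 K w0) S) ∅ ∅ := by
    refine reduceE E (pi4 K w0) S hex hdown a b ?_ hS hw1 hw2
    obtain ⟨γ, hγ⟩ := hz0
    exact ⟨⟨mw K γ w0, γ, rfl⟩, hγ⟩
  obtain ⟨t, ht, hdep⟩ := win_tree (FF (pi4 K w0) S) hred
  have hBF : ∀ x : Ww K w0 → Bool, decide (FF (pi4 K w0) S {w | x w = true}) = true ↔
      FF (pi4 K w0) S {w | x w = true} := fun x => decide_eq_true_iff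
  have hW0 : Nonempty (Ww K w0) := ⟨⟨w0, 1, mw_one K w0⟩⟩
  refine ⟨P, inferInstance, inferInstance, Λ, inferInstance, ρ,
    Ww K w0, inferInstance, wth K w0, fun x => decide (FF (pi4 K w0) S {w | x w = true}), t,
    hρ, rfl, hW0, ?_, ?_, ?_, ?_, ?_, ?_, ?_⟩
  · rintro ⟨v, γ, rfl⟩ ⟨w, δ, rfl⟩
    refine ⟨δ * γ⁻¹, Subtype.ext ?_⟩
    show mw K (δ * γ⁻¹) (mw K γ w0) = mw K δ w0
    rw [← mw_mul K, inv_mul_cancel_right]
  · intro x y hxy
    rw [Bool.le_iff_imp, hBF, hBF]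
    rintro ⟨c, hc⟩
    refine ⟨c, hdown _ _ (ms_anti _ ?_ c) hc⟩
    intro w hw
    have h3 := hxy w
    have hw' : x w = true := hw
    rw [hw'] at h3
    exact top_le_iff.mp h3
  · rw [← Bool.not_eq_true, hBF]
    rintro ⟨c, hc⟩
    refine hnu (hdown _ _ ?_ hc)
    intro v _ w hw
    exact absurd hw (by simp)
  · rw [hBF]
    refine ⟨c0, hdown _ _ ?_ hempty⟩
    intro v hv
    obtain ⟨γ, hγ⟩ := hocc v
    exact absurd hγ (hv ⟨mw K γ w0, γ, rfl⟩ rfl)
  · intro γ x
    rw [Bool.eq_iff_iff, hBF, hBF]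
    have himg : wth K w0 γ '' {u | (x ∘ wth K w0 γ) u = true} = {u | x u = true} := by
      ext u
      constructor
      · rintro ⟨v, hv, rfl⟩
        exact hv
      · intro hu
        refine ⟨(wth K w0 γ).symm u, ?_, Equiv.apply_symm_apply _ u⟩
        show x (wth K w0 γ ((wth K w0 γ).symm u)) = true
        rw [Equiv.apply_symm_apply]
        exact hu
    rw [← himg]
    exact (ff_wth K w0 S haS γ _).symm
  · intro x
    rw [Bool.eq_iff_iff, hBF]
    exact ht x
  · rw [Nat.card_eq_fintype_card] at hq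
    have hpos : 1 ≤ Fintype.card (Ww K w0) := Fintype.card_pos
    have h1 : t.depth ≤ Fintype.card (Ww K w0) - 1 := by omega
    calc t.depth * q ≤ (Fintype.card (Ww K w0) - 1) * q := Nat.mul_le_mul_right _ h1
      _ ≤ (q - 1) * Fintype.card (Ww K w0) := by
        obtain ⟨n, hn⟩ : ∃ n, Fintype.card (Ww K w0) = n + 1 := ⟨_, (Nat.sub_add_cancel hpos).symm⟩
        obtain ⟨r, hr⟩ : ∃ r, q = r + 1 := ⟨q - 1, by omega⟩
        rw [hn, hr, Nat.add_sub_cancel, Nat.add_sub_cancel]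
        rw [hn, hr] at hq
        nlinarith

end words

end Pool.Agent.H393.EW
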