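import Pool.Agent.H393.EW.Asm3
import Pool.Agent.H393.EW.Wr4

/-! A nonevasive function of `7200` variables with a transitive group of permutations of `10`
points: words with four coordinates in two blocks; an even permutation of the five points of a
block acts on the letters of the block, an odd one exchanges its two coordinates as well, and the
letters at the second coordinate of a block are relabelled by an odd permutation.  (helper393) -/

set_option autoImplicit false

namespace Pool.Agent.H393.EW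

open Pool.Agent.H684.EV (Datum)
open Pool.Agent.H571R3 Pool.Agent.R282.EV Pool.Agent.H393.EV
open Pool.Agent.H393.EX (A5s A5s_ext card_A5s)

/-- The even part as the alternating group. -/
def rhoA : A5s →* alternatingGroup (Fin 5) :=
  MonoidHom.mk' (fun g => ⟨g.1.1.1.1, g.1.2⟩) (fun _ _ => rfl)

theorem rhoA_inj : Function.Injective rhoA := by
  intro g h e
  exact Subtype.ext (A5s_ext g.1 h.1 g.2 h.2 (congrArg Subtype.val e))

theorem card_alt : Nat.card (alternatingGroup (Fin 5)) = 60 := by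
  have h3 := two_mul_nat_card_alternatingGroup (α := Fin 5)
  rw [Nat.card_perm, Nat.card_fin] at h3
  have : Nat.factorial 5 = 120 := rfl
  omega

theorem rhoA_bij : Function.Bijective rhoA := by
  refine rhoA_inj.bijective_of_nat_card_le ?_
  rw [card_alt]
  let f : Fin 60 → A5s := fun i => wG (words.get (Fin.cast words_len.symm i))
  have hf : Function.Injective f := by
    intro i i' h
    have h3 := wG_inj _ _ h
    have h5 := List.nodup_iff_injective_get.1 codes_nodup
    have hl : (words.map fun l => code (ev5 l)).length = 60 := by rw [List.length_map, words_len]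
    have h6 : (words.map fun l => code (ev5 l)).get (Fin.cast hl.symm i) =
        (words.map fun l => code (ev5 l)).get (Fin.cast hl.symm i') := by
      simp only [List.get_eq_getElem, List.getElem_map, Fin.val_cast]
      exact congrArg code h3
    exact Fin.cast_injective _ (h5 h6)
  have h := Nat.card_le_card_of_injective f hf
  rw [Nat.card_fin] at h
  exact h

/-- The isomorphism. -/
noncomputable def e5 : A5s ≃* alternatingGroup (Fin 5) := MulEquiv.ofBijective rhoA rhoA_bij

theorem e5_symm (l : List Bool) (h : ev5 l ∈ alternatingGroup (Fin 5)) :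
    e5.symm ⟨ev5 l, h⟩ = wG l := by
  rw [MulEquiv.symm_apply_eq]
  apply Subtype.ext
  exact (evG_fst l).symm

theorem e5_val (g : A5s) : (e5 g).1 = g.1.1.1.1 := rfl

/-- The odd permutation. -/
def so : Equiv.Perm (Fin 5) := Equiv.swap 0 1

theorem so_so : so * so = 1 := Equiv.swap_mul_self _ _

theorem so_inv : so⁻¹ = so := Equiv.swap_inv _ _

/-- The relabelling. -/
def sp (q : ℤˣ) : Equiv.Perm (Fin 5) := if q = 1 then 1 else so

theorem sp_one : sp 1 = 1 := if_pos rfl

theorem sp_neg : sp (-1) = so := if_neg (by decide)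

open Equiv.Perm (sign)

theorem sign_so : sign so = -1 := Equiv.Perm.sign_swap (by decide)

theorem sign_sp (q : ℤˣ) : sign (sp q) = q := by
  rcases Int.units_eq_one_or q with rfl | rfl
  · rw [sp_one, map_one]
  · rw [sp_neg, sign_so]

theorem uu (q : ℤˣ) : q * q = 1 := Int.units_mul_self q

/-- The change of the letters. -/
def lam (g : Equiv.Perm (Fin 5)) (q : ℤˣ) : alternatingGroup (Fin 5) :=
  ⟨(sp q)⁻¹ * g * sp (sign g * q), by
    rw [Equiv.Perm.mem_alternatingGroup, map_mul, map_mul, map_inv, sign_sp, sign_sp,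
      Int.units_inv_eq_self]
    have h : q * sign g * (sign g * q) = q * (sign g * sign g) * q := by
      simp only [mul_assoc]
    rw [h, uu, mul_one, uu]⟩

theorem lam_one (q : ℤˣ) : lam 1 q = 1 := by
  apply Subtype.ext
  show (sp q)⁻¹ * 1 * sp (sign 1 * q) = 1
  rw [map_one, one_mul, mul_one, inv_mul_cancel]

theorem lam_mul (g g' : Equiv.Perm (Fin 5)) (q : ℤˣ) :
    lam (g * g') q = lam g q * lam g' (sign g * q) := by
  apply Subtype.ext
  show (sp q)⁻¹ * (g * g') * sp (sign (g * g') * q) = (sp q)⁻¹ * g * sp (sign g * q) *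
    ((sp (sign g * q))⁻¹ * g' * sp (sign g' * (sign g * q)))
  have e : sign (g * g') * q = sign g' * (sign g * q) := by
    rw [map_mul, mul_comm (sign g) (sign g'), mul_assoc]
  rw [e]
  group

/-- The group of the blocks. -/
abbrev C2 : Type := Multiplicative (ZMod 2)

/-- The nontrivial shift. -/
abbrev s1 : C2 := Multiplicative.ofAdd 1

theorem c2_cases : ∀ q : C2, q = 1 ∨ q = s1 := by decide

theorem ne1 : s1 ≠ 1 := by decide

/-- The wreath product. -/
abbrev PW : Type := RegularWreathProduct (Equiv.Perm (Fin 5)) C2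

/-- The product of the signs. -/
def chi : PW →* ℤˣ := MonoidHom.mk' (fun γ => sign (γ.left 1) * sign (γ.left s1)) (by
  intro γ δ
  show sign (γ.left 1 * δ.left (γ.right⁻¹ * 1)) * sign (γ.left s1 * δ.left (γ.right⁻¹ * s1)) = _
  rw [map_mul, map_mul]
  rcases c2_cases γ.right with h | h
  · rw [h, inv_one, one_mul, one_mul]
    exact mul_mul_mul_comm _ _ _ _
  · rw [h]
    have e1 : (s1⁻¹ * 1 : C2) = s1 := by decide
    have e2 : (s1⁻¹ * s1 : C2) = 1 := by decide
    rw [e1, e2, mul_mul_mul_comm, mul_comm (sign (δ.left s1))])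

/-- The group. -/
abbrev PP : Type := chi.ker

/-- The coordinates. -/
abbrev CC : Type := C2 × ℤˣ

/-- The action on the words. -/
noncomputable def KK : Coc PP CC VV where
  cb γ c := (γ.1.right⁻¹ * c.1, sign (γ.1.left c.1) * c.2)
  lp γ c := aV (e5.symm (lam (γ.1.left c.1) c.2))
  cb_one := by
    rintro ⟨p, q⟩
    show ((1 : C2)⁻¹ * p, sign (1 : Equiv.Perm (Fin 5)) * q) = (p, q)
    rw [inv_one, one_mul, map_one, one_mul]
  cb_mul := by
    rintro γ δ ⟨p, q⟩
    show ((γ.1.right * δ.1.right)⁻¹ * p,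
      sign (γ.1.left p * δ.1.left (γ.1.right⁻¹ * p)) * q) =
      (δ.1.right⁻¹ * (γ.1.right⁻¹ * p), sign (δ.1.left (γ.1.right⁻¹ * p)) * (sign (γ.1.left p) * q))
    rw [mul_inv_rev, mul_assoc, map_mul, mul_comm (sign (γ.1.left p)), mul_assoc]
  lp_one := by
    rintro ⟨p, q⟩
    show aV (e5.symm (lam 1 q)) = 1
    rw [lam_one, map_one, map_one]
  lp_mul := by
    rintro γ δ ⟨p, q⟩
    show aV (e5.symm (lam (γ.1.left p * δ.1.left (γ.1.right⁻¹ * p)) q)) =
      aV (e5.symm (lam (γ.1.left p) q)) *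
        aV (e5.symm (lam (δ.1.left (γ.1.right⁻¹ * p)) (sign (γ.1.left p) * q)))
    rw [lam_mul, map_mul, map_mul]

/-- The word. -/
noncomputable def w0 (c : CC) : Option VV :=
  if c.1 = 1 then (if c.2 = 1 then some (Sum.inl 0) else some (Sum.inl 7))
  else (if c.2 = 1 then some (Sum.inr 1) else none)

theorem nn : (-1 : ℤˣ) ≠ 1 := by decide

theorem w00 : w0 (1, 1) = some (Sum.inl 0) := by
  unfold w0; rw [if_pos rfl, if_pos rfl]

theorem w01 : w0 (1, -1) = some (Sum.inl 7) := by
  unfold w0; rw [if_pos rfl, if_neg nn]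

theorem w10 : w0 (s1, 1) = some (Sum.inr 1) := by
  unfold w0; rw [if_neg ne1, if_pos rfl]

theorem w11 : w0 (s1, -1) = none := by
  unfold w0; rw [if_neg ne1, if_neg nn]

/-- An element of the group without shift. -/
def mk (f : C2 → Equiv.Perm (Fin 5)) (hf : ∀ p, sign (f p) = 1) : PP :=
  ⟨⟨f, 1⟩, by
    show sign (f 1) * sign (f s1) = 1
    rw [hf, hf, one_mul]⟩

theorem mv_mk (f : C2 → Equiv.Perm (Fin 5)) (hf : ∀ p, sign (f p) = 1) (w : CC → Option VV)
    (c : CC) : mw KK (mk f hf) w c = (w c).map fun x => aV (e5.symm (lam (f c.1) c.2)) x := by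
  obtain ⟨p, q⟩ := c
  show (w ((1 : C2)⁻¹ * p, sign (f p) * q)).map _ = _
  rw [inv_one, one_mul, hf, one_mul]
  rfl

theorem mv_mk' (f : C2 → Equiv.Perm (Fin 5)) (hf : ∀ p, sign (f p) = 1) (w : CC → Option VV)
    (p : C2) (q : ℤˣ) (u v : VV) (hu : w (p, q) = some u)
    (hv : aV (e5.symm (lam (f p) q)) u = v) : mw KK (mk f hf) w (p, q) = some v := by
  rw [mv_mk, hu, Option.map_some]
  exact congrArg some hv

/-- An element of the group which moves the coordinate `c` to the first one. -/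
def mc (c : CC) (k : A5s) : PP :=
  ⟨⟨fun _ => (rhoA k).1 * (sp c.2)⁻¹, c.1⁻¹⟩, by
    show sign ((rhoA k).1 * (sp c.2)⁻¹) * sign ((rhoA k).1 * (sp c.2)⁻¹) = 1
    exact uu _⟩

theorem sgn_mc (k : A5s) (q : ℤˣ) : sign ((rhoA k).1 * (sp q)⁻¹) = q := by
  rw [map_mul, map_inv, sign_sp, Int.units_inv_eq_self,
    Equiv.Perm.mem_alternatingGroup.1 (rhoA k).2, one_mul]

theorem mv_mc (c : CC) (k : A5s) (w : CC → Option VV) :
    mw KK (mc c k) w (1, 1) = (w c).map fun x => aV k x := by
  obtain ⟨p, q⟩ := c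
  show (w ((p⁻¹)⁻¹ * 1, sign ((rhoA k).1 * (sp q)⁻¹) * 1)).map
    (aV (e5.symm (lam ((rhoA k).1 * (sp q)⁻¹) 1))) = _
  rw [inv_inv, mul_one, mul_one, sgn_mc]
  have e : lam ((rhoA k).1 * (sp q)⁻¹) 1 = e5 k := by
    apply Subtype.ext
    show (sp 1)⁻¹ * ((rhoA k).1 * (sp q)⁻¹) * sp (sign ((rhoA k).1 * (sp q)⁻¹) * 1) = (rhoA k).1
    rw [sgn_mc, mul_one, sp_one, inv_one, one_mul, inv_mul_cancel_right]
  rw [e, MulEquiv.symm_apply_apply]

theorem mv_mc' (c : CC) (k : A5s) (u v : VV) (hu : w0 c = some u) (hv : aV k u = v) :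
    ∃ γ : PP, mw KK γ w0 (1, 1) = some v := by
  refine ⟨mc c k, ?_⟩
  rw [mv_mc, hu, Option.map_some, ← hv]

theorem fin2 : ∀ i : Fin 2, i = 0 ∨ i = 1 := by decide

theorem hocc (v : VV) : ∃ γ : PP, mw KK γ w0 (1, 1) = some v := by
  rcases v with x | k
  · rcases fin2 (bk x) with h | h
    · obtain ⟨g, h1, -⟩ := X1 x h
      exact mv_mc' (1, 1) g _ _ w00 (by rw [aV_inl, h1])
    · obtain ⟨g, -, h1⟩ := X2 x h
      exact mv_mc' (1, -1) g _ _ w01 (by rw [aV_inl, h1])
  · exact mv_mc' (s1, 1) k _ _ w10 (by rw [aV_inr, mul_one])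

theorem aV1 (x : VV) : aV 1 x = x := by
  rw [map_one]
  rfl

/-- A function with one given value. -/
def at1 (q : C2) (x : Equiv.Perm (Fin 5)) (p : C2) : Equiv.Perm (Fin 5) := if p = q then x else 1

theorem at1_eq (q : C2) (x : Equiv.Perm (Fin 5)) : at1 q x q = x := if_pos rfl

theorem at1_ne (q p : C2) (x : Equiv.Perm (Fin 5)) (h : p ≠ q) : at1 q x p = 1 := if_neg h

theorem at1_sign (q : C2) (x : Equiv.Perm (Fin 5)) (hx : sign x = 1) (p : C2) :
    sign (at1 q x p) = 1 := by
  unfold at1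
  split_ifs
  · exact hx
  · exact map_one _

theorem sign_ev5 (l : List Bool) : sign (ev5 l) = 1 := by
  have h := Equiv.Perm.mem_alternatingGroup.1 (rhoA (wG l)).2
  have e : (rhoA (wG l)).1 = ev5 l := evG_fst l
  rwa [e] at h

theorem lam_even (l : List Bool) : e5.symm (lam (ev5 l) 1) = wG l := by
  have h : ev5 l ∈ alternatingGroup (Fin 5) := Equiv.Perm.mem_alternatingGroup.2 (sign_ev5 l)
  rw [← e5_symm l h]
  congr 1
  apply Subtype.ext
  show (sp 1)⁻¹ * ev5 l * sp (sign (ev5 l) * 1) = ev5 l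
  rw [sign_ev5, mul_one, sp_one, inv_one, one_mul, mul_one]

theorem lam_odd (l l' : List Bool) (hl : so * ev5 l * so = ev5 l') :
    e5.symm (lam (ev5 l) (-1)) = wG l' := by
  have h : ev5 l' ∈ alternatingGroup (Fin 5) := Equiv.Perm.mem_alternatingGroup.2 (sign_ev5 l')
  rw [← e5_symm l' h]
  congr 1
  apply Subtype.ext
  show (sp (-1))⁻¹ * ev5 l * sp (sign (ev5 l) * (-1)) = ev5 l'
  rw [sign_ev5, one_mul, sp_neg, so_inv, hl]

/-- Fixed letters. -/
theorem fixd (f : C2 → Equiv.Perm (Fin 5)) (hf : ∀ p, sign (f p) = 1) (p : C2) (q : ℤˣ)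
    (hfix : ∀ u, w0 (p, q) = some u → aV (e5.symm (lam (f p) q)) u = u) :
    mw KK (mk f hf) w0 (p, q) = w0 (p, q) := by
  cases e : w0 (p, q) with
  | none => rw [mv_mk, e]; rfl
  | some u => exact mv_mk' f hf w0 p q u u e (hfix u e)

theorem Z1 : ∀ v : Fin 11, bk v = 0 → ∃ ll ∈ ([([], []),
    ([true, false, true, true], [true, true, true, true]), ([false, true], [true]),
    ([false, true, false, true], [true, true]),
    ([true, false, true, false, false], [true, true, true])] : List (List Bool × List Bool)),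
    so * ev5 ll.1 * so = ev5 ll.2 ∧ J2 (evQ ll.1) 0 = v ∧ J2 (evQ ll.2) 7 = 7 := by
  decide +kernel

theorem Z2 : ∀ v : Fin 11, bk v = 1 → ∃ ll ∈ ([([false, false, true], [false, false, true]),
    ([true, true, true, true, false], [true, true, true, true, false]), ([], []),
    ([false, false, true, false, true, true], [false, true, true, true, true]),
    ([false, true, true], [true, false, true]),
    ([false, true, false], [true, false, false])] : List (List Bool × List Bool)),
    so * ev5 ll.1 * so = ev5 ll.2 ∧ J2 (evQ ll.1) 0 = 0 ∧ J2 (evQ ll.2) 7 = v := by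
  decide +kernel

/-- The word of an involution. -/
def tl : List Bool := [true, false, true, false, true, true, true]

/-- The word of its conjugate. -/
def tl' : List Bool := [false, true, false, true, false, false, true, true]

theorem Z3 : so * ev5 tl * so = ev5 tl' ∧ J2 (evQ tl) 0 = 0 ∧ J2 (evQ tl') 7 = 7 ∧
    ev5 tl ≠ 1 := by
  decide +kernel

theorem units_cases (q : ℤˣ) : q = 1 ∨ q = -1 := Int.units_eq_one_or q

/-- The common part of the exchanges in the first block. -/
theorem fix_blk (l : List Bool) (d1 : C2) (d2 : ℤˣ)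
    (h : ∀ u, d1 = 1 → w0 (1, d2) = some u → aV (e5.symm (lam (ev5 l) d2)) u = u) :
    mw KK (mk (at1 1 (ev5 l)) (at1_sign 1 _ (sign_ev5 l))) w0 (d1, d2) = w0 (d1, d2) := by
  refine fixd _ _ _ _ (fun u hu => ?_)
  rcases c2_cases d1 with rfl | rfl
  · rw [at1_eq]
    exact h u rfl hu
  · rw [at1_ne _ _ _ ne1, lam_one, map_one, aV1]

theorem hex0 (c : CC) (u v : VV) (hc : w0 c = some u) (huv : EE u v) :
    ∃ γ : PP, mw KK γ w0 c = some v ∧ ∀ d, d ≠ c → mw KK γ w0 d = w0 d := by
  obtain ⟨c1, c2⟩ := c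
  rcases c2_cases c1 with rfl | rfl <;> rcases units_cases c2 with rfl | rfl
  · -- a point
    rw [w00] at hc
    obtain rfl := Option.some_injective _ hc
    rcases huv with ⟨x, y, hx, rfl, hxy⟩ | ⟨g, k, hs, -⟩
    · obtain rfl := Sum.inl_injective hx
      obtain ⟨⟨l, l'⟩, -, h0, h1, h2⟩ := Z1 y hxy.symm
      refine ⟨mk (at1 1 (ev5 l)) (at1_sign 1 _ (sign_ev5 l)), ?_, ?_⟩
      · refine mv_mk' _ _ _ _ _ _ _ w00 ?_
        rw [at1_eq, lam_even, aV_inl, act11_wG, h1]
      · rintro ⟨d1, d2⟩ hd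
        refine fix_blk l d1 d2 (fun u hd1 hu => ?_)
        subst hd1
        rcases units_cases d2 with rfl | rfl
        · exact absurd rfl hd
        · rw [w01] at hu
          obtain rfl := Option.some_injective _ hu
          rw [lam_odd l l' h0, aV_inl, act11_wG, h2]
    · cases hs
  · -- a centre
    rw [w01] at hc
    obtain rfl := Option.some_injective _ hc
    rcases huv with ⟨x, y, hx, rfl, hxy⟩ | ⟨g, k, hs, -⟩
    · obtain rfl := Sum.inl_injective hx
      obtain ⟨⟨l, l'⟩, -, h0, h1, h2⟩ := Z2 y hxy.symm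
      refine ⟨mk (at1 1 (ev5 l)) (at1_sign 1 _ (sign_ev5 l)), ?_, ?_⟩
      · refine mv_mk' _ _ _ _ _ _ _ w01 ?_
        rw [at1_eq, lam_odd l l' h0, aV_inl, act11_wG, h2]
      · rintro ⟨d1, d2⟩ hd
        refine fix_blk l d1 d2 (fun u hd1 hu => ?_)
        subst hd1
        rcases units_cases d2 with rfl | rfl
        · rw [w00] at hu
          obtain rfl := Option.some_injective _ hu
          rw [lam_even, aV_inl, act11_wG, h1]
        · exact absurd rfl hd
    · cases hs
  · -- a new vertex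
    rw [w10] at hc
    obtain rfl := Option.some_injective _ hc
    rcases huv with ⟨x, y, hx, -, -⟩ | ⟨g, k, hs, rfl⟩
    · cases hx
    · obtain ⟨l, rfl⟩ := all_words k
      refine ⟨mk (at1 s1 (ev5 l)) (at1_sign s1 _ (sign_ev5 l)), ?_, ?_⟩
      · refine mv_mk' _ _ _ _ _ _ _ w10 ?_
        rw [at1_eq, lam_even, aV_inr, mul_one]
      · rintro ⟨d1, d2⟩ hd
        refine fixd _ _ _ _ (fun u hu => ?_)
        rcases c2_cases d1 with rfl | rfl
        · rw [at1_ne _ _ _ ne1.symm, lam_one, map_one, aV1]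
        · rcases units_cases d2 with rfl | rfl
          · exact absurd rfl hd
          · rw [w11] at hu
            cases hu
  · rw [w11] at hc
    cases hc

theorem hz0 : ∃ γ : PP, ∀ c, mw KK γ w0 c ≠ some (Sum.inr k0) ∧
    mw KK γ w0 c ≠ some (Sum.inr k1) := by
  obtain ⟨h1, -, h3, -, -, -⟩ := k0_ne
  refine ⟨1, fun c => ?_⟩
  rw [mw_one]
  obtain ⟨c1, c2⟩ := c
  rcases c2_cases c1 with rfl | rfl <;> rcases units_cases c2 with rfl | rfl
  · rw [w00]; exact ⟨fun h => (by cases h), fun h => (by cases h)⟩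
  · rw [w01]; exact ⟨fun h => (by cases h), fun h => (by cases h)⟩
  · rw [w10]
    exact ⟨fun h => h1 (Sum.inr_injective (Option.some_injective _ h)).symm,
      fun h => h3 (Sum.inr_injective (Option.some_injective _ h)).symm⟩
  · rw [w11]; exact ⟨fun h => (by cases h), fun h => (by cases h)⟩

/-- A nontrivial element of the stabiliser. -/
def st1 : PP := mk (at1 1 (ev5 tl)) (at1_sign 1 _ (sign_ev5 tl))

theorem st1_ne : st1 ≠ 1 := by
  intro h
  have h1 : at1 1 (ev5 tl) 1 = 1 := congrArg (fun γ : PP => γ.1.left 1) h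
  rw [at1_eq] at h1
  exact Z3.2.2.2 h1

theorem st1_fix : mw KK st1 w0 = w0 := by
  obtain ⟨h0, h1, h2, -⟩ := Z3
  funext ⟨d1, d2⟩
  refine fix_blk tl d1 d2 (fun u hd1 hu => ?_)
  rcases units_cases d2 with rfl | rfl
  · rw [w00] at hu
    obtain rfl := Option.some_injective _ hu
    rw [lam_even, aV_inl, act11_wG, h1]
  · rw [w01] at hu
    obtain rfl := Option.some_injective _ hu
    rw [lam_odd tl tl' h0, aV_inl, act11_wG, h2]

theorem card_pp : Nat.card PP ≤ 14400 := by
  have h1 := Subgroup.index_mul_card chi.ker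
  have h2 : Nat.card PW = 28800 := by
    rw [RegularWreathProduct.card, Nat.card_perm, Nat.card_fin]
    have e2 : Nat.card C2 = 2 := by
      rw [Nat.card_eq_fintype_card]; rfl
    rw [e2]
    rfl
  rw [h2] at h1
  have h3 : chi.ker.index ≠ 1 := by
    intro h
    have h4 := Subgroup.index_eq_one.1 h
    have h5 : (⟨at1 1 so, 1⟩ : PW) ∈ chi.ker := by rw [h4]; exact Subgroup.mem_top _
    have h6 : sign (at1 1 so 1) * sign (at1 1 so s1) = 1 := h5
    rw [at1_eq, at1_ne _ _ _ ne1, sign_so, map_one] at h6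
    exact absurd h6 (by decide)
  have h4 : chi.ker.index ≠ 0 := by
    intro h
    rw [h, zero_mul] at h1
    omega
  have h5 : 2 ≤ chi.ker.index := by omega
  show Nat.card chi.ker ≤ 14400
  nlinarith

theorem card_ww : Nat.card (Ww KK w0) ≤ 7200 := by
  let _ := wact4 KK w0
  let x0 : Ww KK w0 := ⟨w0, 1, mw_one KK w0⟩
  have _ : MulAction.IsPretransitive PP (Ww KK w0) := ⟨by
    rintro ⟨v, γ, rfl⟩ ⟨w, δ, rfl⟩
    refine ⟨δ * γ⁻¹, Subtype.ext ?_⟩
    show mw KK (δ * γ⁻¹) (mw KK γ w0) = mw KK δ w0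
    rw [← mw_mul KK, inv_mul_cancel_right]⟩
  have h1 := MulAction.index_stabilizer_of_transitive PP x0
  have h2 := Subgroup.index_mul_card (MulAction.stabilizer PP x0)
  have h3 : 2 ≤ Nat.card (MulAction.stabilizer PP x0) := by
    have : Nontrivial (MulAction.stabilizer PP x0) :=
      ⟨⟨1, one_mem _⟩, ⟨st1, Subtype.ext st1_fix⟩, fun h =>
        st1_ne (congrArg Subtype.val h).symm⟩
    exact Finite.one_lt_card
  have h4 := card_pp
  rw [h1] at h2
  nlinarith

theorem MM_ne : MM ≠ [] := by decide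

/-- A monotone function of `7200` variables with a transitive group which acts faithfully on
`10` points, not evasive. -/
theorem datum4 : Datum 10 (7200 - 1) 7200 := by
  have h := ww_datum KK w0 (Sorb aV psi MM) EE
    (fun γ c A => sorb_smul aV psi MM _ A) (fun γ c => EE_aV _) (sorb_down aV psi MM)
    (sorb_empty aV psi MM MM_ne) (1, 1) hocc hex0 (Sum.inr k0) (Sum.inr k1) hz0 pair_not w1a w1b
    (Λ := Fin 5 × C2) ((RegularWreathProduct.toPerm (Equiv.Perm (Fin 5)) C2 (Fin 5)).comp
      chi.ker.subtype)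
    ((RegularWreathProduct.toPermInj _ _ _).comp (Subgroup.subtype_injective _)) 7200 card_ww
  have e : Fintype.card (Fin 5 × C2) = 10 := by rfl
  rw [e] at h
  exact h

end Pool.Agent.H393.EW
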