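import Pool.Agent.H393.EX.Grp2

/-! The alternating group on the eleven points.  (helper393) -/

set_option autoImplicit false

namespace Pool.Agent.H393.EW

open Pool.Agent.H571R3 Pool.Agent.R282.EV Pool.Agent.H684.EV Pool.Agent.H393.EV
open Pool.Agent.H393.EX (A5s A5s_ext card_A5s rho1 rho1_inj)

/-- Permutations of the two blocks. -/
abbrev P2 : Type := Equiv.Perm (Fin 5) × Equiv.Perm (Fin 6)

/-- Eleven points as `5 + 6` points. -/
def e11 : Fin 5 ⊕ Fin 6 ≃ Fin 11 := finSumFinEquiv (m := 5) (n := 6)

/-- The permutations of the eleven points which preserve the blocks. -/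
def J2 : P2 →* Equiv.Perm (Fin 11) :=
  (e11.permCongrHom.toMonoidHom).comp (Equiv.Perm.sumCongrHom (Fin 5) (Fin 6))

theorem J2_apply (x : P2) (y : Fin 5 ⊕ Fin 6) :
    J2 x (e11 y) = e11 (Equiv.sumCongr x.1 x.2 y) := by
  show e11 (Equiv.sumCongr x.1 x.2 (e11.symm (e11 y))) = _
  rw [Equiv.symm_apply_apply]

/-- The two parts of an element of the group. -/
def pr2 : A5s →* P2 := MonoidHom.mk' (fun g => (g.1.1.1.1, g.1.1.1.2.1)) (fun _ _ => rfl)

/-- The action on eleven points. -/
def act11 : A5s →* Equiv.Perm (Fin 11) := J2.comp pr2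

/-- Words. -/
def wG (l : List Bool) : A5s := ⟨evG l, evG_snd l⟩

/-- The values of words. -/
def evQ : List Bool → P2
  | [] => 1
  | true :: l => (a5, b5) * evQ l
  | false :: l => (a3, b3) * evQ l

theorem pr2_wG (l : List Bool) : pr2 (wG l) = evQ l := by
  induction l with
  | nil => rfl
  | cons b l ih =>
    cases b
    · show (a3, b3) * pr2 (wG l) = _
      rw [ih]; rfl
    · show (a5, b5) * pr2 (wG l) = _
      rw [ih]; rfl

theorem act11_wG (l : List Bool) : act11 (wG l) = J2 (evQ l) := by
  show J2 (pr2 (wG l)) = _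
  rw [pr2_wG]

theorem all_words (g : A5s) : ∃ l, wG l = g := by
  let f : Fin 60 → A5s := fun i => wG (words.get (Fin.cast words_len.symm i))
  have hf : Function.Injective f := by
    intro i i' h
    have h2 : evG (words.get (Fin.cast words_len.symm i)) =
        evG (words.get (Fin.cast words_len.symm i')) := congrArg Subtype.val h
    have h3 := congrArg (fun g : GG => g.1.1.1) h2
    simp only [evG_fst] at h3
    have h5 := List.nodup_iff_injective_get.1 codes_nodup
    have hl : (words.map fun l => code (ev5 l)).length = 60 := by rw [List.length_map, words_len]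
    have h6 : (words.map fun l => code (ev5 l)).get (Fin.cast hl.symm i) =
        (words.map fun l => code (ev5 l)).get (Fin.cast hl.symm i') := by
      simp only [List.get_eq_getElem, List.getElem_map, Fin.val_cast]
      exact congrArg code h3
    exact Fin.cast_injective _ (h5 h6)
  have hb := hf.bijective_of_nat_card_le (by rw [Nat.card_fin]; exact card_A5s)
  obtain ⟨i, hi⟩ := hb.2 g
  exact ⟨_, hi⟩

/-- The block of a point. -/
def bk (i : Fin 11) : Fin 2 := if i.val < 5 then 0 else 1

theorem act11_bk (g : A5s) (i : Fin 11) : bk (act11 g i) = bk i := by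
  obtain ⟨y, rfl⟩ := e11.surjective i
  have h : act11 g (e11 y) = e11 (Equiv.sumCongr (pr2 g).1 (pr2 g).2 y) := J2_apply (pr2 g) y
  rw [h]
  have key : (∀ p : Fin 5, bk (e11 (Sum.inl p)) = 0) ∧
    (∀ c : Fin 6, bk (e11 (Sum.inr c)) = 1) := by decide
  rcases y with p | c
  · rw [key.1]; exact key.1 _
  · rw [key.2]; exact key.2 _

theorem X1 : ∀ v : Fin 11, bk v = 0 → ∃ g : A5s, act11 g 0 = v ∧ act11 g 7 = 7 := by
  intro v hv
  have key : ∀ v : Fin 11, bk v = 0 → ∃ l ∈ ([[], [true], [true, true], [true, true, true],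
    [true, true, true, true]] : List (List Bool)), J2 (evQ l) 0 = v ∧ J2 (evQ l) 7 = 7 := by
    decide +kernel
  obtain ⟨l, -, h1, h2⟩ := key v hv
  exact ⟨wG l, by rw [act11_wG]; exact h1, by rw [act11_wG]; exact h2⟩

theorem X2 : ∀ v : Fin 11, bk v = 1 → ∃ g : A5s, act11 g 0 = 0 ∧ act11 g 7 = v := by
  intro v hv
  have key : ∀ v : Fin 11, bk v = 1 → ∃ l ∈ ([[false, false, true], [false, true, false], [],
    [false, true, true], [true, false, true, true, true, true],
    [true, true, true, false, true]] : List (List Bool)), J2 (evQ l) 0 = 0 ∧ J2 (evQ l) 7 = v := by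
    decide +kernel
  obtain ⟨l, -, h1, h2⟩ := key v hv
  exact ⟨wG l, by rw [act11_wG]; exact h1, by rw [act11_wG]; exact h2⟩

/-- The involution which exchanges the two cones. -/
def hz : A5s := wG [false, true, false, true, true, true, true]

/-- An involution which fixes a point and a centre. -/
def tz : A5s := wG [false, false, true, false, true, false]

theorem wG_eq_one (l : List Bool) (h : ev5 l = 1) : wG l = 1 := by
  apply Subtype.ext
  apply A5s_ext
  · exact evG_snd l
  · exact one_mem _
  · show (evG l).1.1.1 = 1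
    rw [evG_fst, h]

theorem wG_append (l l' : List Bool) : wG (l ++ l') = wG l * wG l' := by
  apply Subtype.ext
  show evG (l ++ l') = evG l * evG l'
  induction l with
  | nil => rw [List.nil_append]; exact (one_mul _).symm
  | cons b l ih =>
    cases b
    · show x3 * evG (l ++ l') = x3 * evG l * evG l'
      rw [ih, mul_assoc]
    · show x5 * evG (l ++ l') = x5 * evG l * evG l'
      rw [ih, mul_assoc]

theorem hzz : hz * hz = 1 := by
  unfold hz
  rw [← wG_append]
  exact wG_eq_one _ (by decide +kernel)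

theorem wG_inj (l l' : List Bool) (h : wG l = wG l') : ev5 l = ev5 l' := by
  have h2 : evG l = evG l' := congrArg Subtype.val h
  have h3 := congrArg (fun g : GG => g.1.1.1) h2
  simp only [evG_fst] at h3
  exact h3

theorem wG_nil : wG [] = 1 := rfl

theorem hz_ne : hz ≠ 1 := by
  intro h
  rw [← wG_nil] at h
  exact absurd (congrArg (fun e : Equiv.Perm (Fin 5) => e 0) (wG_inj _ _ h)) (by decide +kernel)

theorem tz_ne : tz ≠ 1 := by
  intro h
  rw [← wG_nil] at h
  exact absurd (congrArg (fun e : Equiv.Perm (Fin 5) => e 1) (wG_inj _ _ h)) (by decide +kernel)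

theorem tz_fix : act11 tz 0 = 0 ∧ act11 tz 7 = 7 := by
  unfold tz
  rw [act11_wG]
  decide +kernel

/-- The first translation. -/
def k0 : A5s := wG [true]

/-- The second translation. -/
def k1 : A5s := wG [true, true]

theorem k0_ne : k0 ≠ 1 ∧ k0 ≠ hz ∧ k1 ≠ 1 ∧ k1 ≠ hz ∧ k1 ≠ k0 ∧ k1 ≠ k0 * hz := by
  refine ⟨?_, ?_, ?_, ?_, ?_, ?_⟩
  · intro h
    rw [← wG_nil] at h
    exact absurd (congrArg (fun e : Equiv.Perm (Fin 5) => e 0) (wG_inj _ _ h)) (by decide +kernel)
  · intro h
    exact absurd (congrArg (fun e : Equiv.Perm (Fin 5) => e 1) (wG_inj _ _ h)) (by decide +kernel)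
  · intro h
    rw [← wG_nil] at h
    exact absurd (congrArg (fun e : Equiv.Perm (Fin 5) => e 0) (wG_inj _ _ h)) (by decide +kernel)
  · intro h
    exact absurd (congrArg (fun e : Equiv.Perm (Fin 5) => e 0) (wG_inj _ _ h)) (by decide +kernel)
  · intro h
    exact absurd (congrArg (fun e : Equiv.Perm (Fin 5) => e 0) (wG_inj _ _ h)) (by decide +kernel)
  · intro h
    unfold k0 hz at h
    rw [← wG_append] at h
    exact absurd (congrArg (fun e : Equiv.Perm (Fin 5) => e 1) (wG_inj _ _ h)) (by decide +kernel)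

/-- The action of the involution on the chart. -/
def tau (i : ℕ) : ℕ := ([1, 0, 3, 2, 4, 5, 7, 6, 10, 9, 8, 12, 11] : List ℕ).getD i 0

theorem TT1 : ∀ i : Fin 11, tau i.val = (J2 (evQ [false, true, false, true, true, true, true]) i).val := by
  decide +kernel

end Pool.Agent.H393.EW
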